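import Pool.Agent.TH152.DS.Uni

/-!
Uniform positivity of the canonical bundle: maps to projective space which may be degenerate.
-/

set_option autoImplicit false

open FF Pool.Agent.W603.LV Pool.Agent.W602.GT Pool.Agent.W602.Cov Pool.Agent.W602.Cov.G
open Pool.Agent.W168.CG.PGR Pool.Agent.TH152.AC Pool.Agent.TH152.HY IntermediateField

namespace Pool.Agent.TH152.DS

variable {K : Type} [Field K] [Algebra ℂ K] {R w : ℕ} {Bd : Place ℂ K → Prop}

theorem Effective.pow {ι : Type} {y : ι → K} (h : Effective K R w Bd y) {j0 : ι} (hj0 : y j0 ≠ 0)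
    {c : ℕ} (hc : 0 < c) : Effective K (R * c) w Bd y := by
  obtain ⟨ω, h1, ⟨D, hD⟩, h3, h4⟩ := h
  obtain ⟨c', rfl⟩ : ∃ c', c = c' + 1 := ⟨c - 1, by omega⟩
  have key : ∀ (P : Place ℂ K) (E : Fin w → Derivation ℂ K K),
      (∀ j, Ge P 0 (ω E * y j)) → ∀ j, P.Reg (ω E ^ (c' + 1) * y j0 ^ c' * y j) := by
    intro P E h j
    have h1 := ((h j0).pow c').mul (h j)
    rw [mul_zero, add_zero] at h1
    have h2 : ω E ^ (c' + 1) * y j0 ^ c' * y j = (ω E * y j0) ^ c' * (ω E * y j) := by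
      rw [mul_pow]
      ring
    rw [h2]
    exact h1
  refine ⟨fun E => ω E ^ (c' + 1) * y j0 ^ c', ?_, ⟨D, ?_⟩, ?_, ?_⟩
  · intro M E
    change ω _ ^ (c' + 1) * y j0 ^ c' = _
    rw [h1 M E, mul_pow, ← pow_mul, mul_assoc]
  · exact mul_ne_zero (pow_ne_zero _ hD) (pow_ne_zero _ hj0)
  · intro P hP j E hE
    exact key P E (fun j => h3 P hP j E hE) j
  · intro P hP hB j E hE
    exact key P E (fun j => h4 P hP hB j E hE) j

theorem Effective.lin {ι κ : Type} [Fintype ι] {y : ι → K} {b : κ → K}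
    (h : Effective K R w Bd y) (c : κ → ι → ℂ) (hb : ∀ j, b j = ∑ k, c j k • y k) :
    Effective K R w Bd b := by
  obtain ⟨ω, h1, h2, h3, h4⟩ := h
  have key : ∀ (P : Place ℂ K) (E : Fin w → Derivation ℂ K K),
      (∀ j, Ge P 0 (ω E * y j)) → ∀ j, P.Reg (ω E * b j) := by
    intro P E h j
    have h2 : ω E * b j = ∑ k, algebraMap ℂ K (c j k) * (ω E * y k) := by
      rw [hb, Finset.mul_sum]
      refine Finset.sum_congr rfl fun k _ => ?_
      rw [Algebra.smul_def]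
      ring
    rw [h2]
    refine Ge.sum _ _ fun k _ => ?_
    have h5 := (Ge.const (P := P) (c j k)).mul (h k)
    rwa [zero_add] at h5
  exact ⟨ω, h1, h2, fun P hP j E hE => key P E (fun j => h3 P hP j E hE) j,
    fun P hP hB j E hE => key P E (fun j => h4 P hP hB j E hE) j⟩

/-- **Uniform positivity.** -/
theorem sub_uniform' (n q : ℕ) (hn : 1 ≤ n) : ∃ R : ℕ, 0 < R ∧ ∀ {ℓ : Fin q → Form n},
    ¬ Reducible ℓ → ∀ {m : ℕ}, n * (n + 1) * (n + 2) < 2 * m →
    ∀ {d : ℕ} {K : Type} [Field K] [Algebra ℂ K], 1 ≤ d → ∀ {b : Fin (n + 1) → K}, b ≠ 0 →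
    (∀ i, lf (ℓ i) b ≠ 0) →
    (∀ κ : Finset (Fin q), κ.Nonempty → κ ≠ Finset.univ →
      ∃ φ : Form n, Flat ℓ κ ⊔ Flat ℓ κᶜ ≤ LinearMap.ker φ ∧ lf φ b ≠ 0) →
    Algebra.trdeg ℂ K = d →
    Algebra.IsAlgebraic (adjoin ℂ {f : K | ∃ i j, b j ≠ 0 ∧ f = b i / b j}) K →
    ∀ Bd : Place ℂ K → Prop,
    (∀ P : Place ℂ K, Divisorial d P → ¬ Bd P → ∀ (a : ℤ) (v : Fin q → ℕ),
      (∀ φ : Form n, lf φ b = 0 ∨ a ≤ P.ord (lf φ b)) →
      (∃ i, P.ord (lf (ℓ i) b) = a) →
      (∀ i, P.ord (lf (ℓ i) b) = a + v i) → v ≠ 0 → ∃ i, m ≤ v i) →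
    Effective K R d Bd b := by
  classical
  have hch : ∀ n' : ℕ, ∃ R : ℕ, 0 < R ∧ (1 ≤ n' → ∀ {ℓ : Fin q → Form n'},
      (∀ i, ℓ i ≠ 0) → ¬ Reducible ℓ → ∀ {m : ℕ}, n' * (n' + 1) * (n' + 2) < 2 * m →
      ∀ {d : ℕ} {K : Type} [Field K] [Algebra ℂ K] {x : Fin (n' + 1) → K},
      LinearIndependent ℂ x → ∀ σ : Fin (d + 1) → Fin (n' + 1), x (σ 0) ≠ 0 →
      IsTranscendenceBasis ℂ (fun j : Fin d => x (σ j.succ) / x (σ 0)) →
      ∀ Bd : Place ℂ K → Prop,
      (∀ P : Place ℂ K, Divisorial d P → ¬ Bd P → HighAt ℓ x m P) →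
      Effective K R d Bd x) := by
    intro n'
    by_cases h : 1 ≤ n'
    · obtain ⟨R, h1, h2⟩ := sub_uniform n' q h
      exact ⟨R, h1, fun _ => h2⟩
    · exact ⟨1, one_pos, fun h' => absurd h' h⟩
  choose Rf hRf hRf' using hch
  refine ⟨∏ n' ∈ Finset.range (n + 1), Rf n', Finset.prod_pos fun n' _ => hRf n', ?_⟩
  intro ℓ hr m hm d K _ _ hd b hb hlb hκ htr halg Bd hP
  obtain ⟨n', A, S, y, hn'n, hSA, hli, hlf⟩ := exists_coords hb
  set ℓ' : Fin q → Form n' := fun i => ℓ i ∘ₗ A with hℓ'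
  have hℓb : ∀ i, lf (ℓ' i) y = lf (ℓ i) b := fun i => (hlf (ℓ i)).symm
  have hℓ'0 : ∀ i, ℓ' i ≠ 0 := by
    intro i h0
    apply hlb i
    rw [← hℓb i, h0]
    simp [lf]
  have hAinj : ∀ z, A z = 0 → z = 0 := fun z hz => by rw [← hSA z, hz, map_zero]
  -- the new arrangement is not reducible
  have hred : ¬ Reducible ℓ' := by
    rintro ⟨V1, V2, hV1, hV2, hc, hV⟩
    obtain ⟨φ, hφ, hφb⟩ := hκ (Finset.univ.filter fun i => ∀ v ∈ V1, ℓ' i v = 0) (by
      rw [Finset.nonempty_iff_ne_empty]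
      intro hemp
      apply hV2
      rw [Submodule.eq_bot_iff]
      intro v hv
      refine hAinj v (essential hn hr fun i => ?_)
      rcases hV i with h | h
      · exfalso
        have : i ∈ Finset.univ.filter fun i => ∀ v ∈ V1, ℓ' i v = 0 :=
          Finset.mem_filter.mpr ⟨Finset.mem_univ _, h⟩
        rw [hemp] at this
        exact absurd this (Finset.notMem_empty _)
      · exact h v hv) (by
      intro huniv
      apply hV1
      rw [Submodule.eq_bot_iff]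
      intro v hv
      refine hAinj v (essential hn hr fun i => ?_)
      have h2 : i ∈ Finset.univ.filter fun i => ∀ v ∈ V1, ℓ' i v = 0 := by
        rw [huniv]
        exact Finset.mem_univ _
      exact (Finset.mem_filter.mp h2).2 v hv)
    apply hφb
    have h0 : φ ∘ₗ A = 0 := by
      apply LinearMap.ext
      intro z
      have h1 : z ∈ V1 ⊔ V2 := by rw [hc.sup_eq_top]; trivial
      obtain ⟨v1, hv1, v2, hv2, h12⟩ := Submodule.mem_sup.mp h1
      rw [← h12]
      change φ (A (v1 + v2)) = 0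
      rw [map_add]
      apply hφ
      apply Submodule.add_mem_sup
      · rw [mem_flat]
        intro i hi
        exact (Finset.mem_filter.mp hi).2 v1 hv1
      · rw [mem_flat]
        intro i hi
        rw [Finset.mem_compl, Finset.mem_filter] at hi
        rcases hV i with h | h
        · exact absurd ⟨Finset.mem_univ _, h⟩ hi
        · exact h v2 hv2
    rw [hlf, h0]
    simp [lf]
  -- a transcendence basis
  have hy0 : y 0 ≠ 0 := hli.ne_zero 0
  have hbs : ∀ j, b j = ∑ k, (LinearMap.proj j ∘ₗ A) (Pi.single k 1) • y k := by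
    intro j
    have h1 := hlf (LinearMap.proj j)
    rw [lf_proj] at h1
    rw [h1, lf_eq_smul]
  have hsub : ∀ i, b i / y 0 ∈ adjoin ℂ (Set.range fun k => y k / y 0) := by
    intro i
    rw [hbs i, Finset.sum_div]
    refine sum_mem fun k _ => ?_
    rw [smul_div_assoc, Algebra.smul_def]
    have h1 : y k / y 0 ∈ Set.range fun k => y k / y 0 := ⟨k, rfl⟩
    exact mul_mem (_root_.algebraMap_mem _ _) (subset_adjoin ℂ _ h1)
  have halg' : Algebra.IsAlgebraic (adjoin ℂ (Set.range fun k => y k / y 0)) K := by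
    refine HY.alg_mono ?_ halg
    rw [adjoin_le_iff]
    rintro _ ⟨i, j, hj, rfl⟩
    have e : b i / b j = (b i / y 0) / (b j / y 0) := by
      field_simp
    rw [e]
    exact div_mem (hsub i) (hsub j)
  obtain ⟨σ, hσ, hbas⟩ := exists_sigma hy0 halg' htr
  have hn' : 1 ≤ n' := by
    by_contra h0
    obtain rfl : n' = 0 := by omega
    obtain ⟨j0, -⟩ : ∃ j0 : Fin d, j0 = j0 := ⟨⟨0, hd⟩, rfl⟩
    have h1 := hbas.1.transcendental j0
    apply h1
    have h2 : y (σ j0.succ) / y (σ 0) = 1 := by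
      rw [Fin.eq_zero (σ j0.succ), Fin.eq_zero (σ 0)]
      exact div_self hy0
    change IsAlgebraic ℂ (y (σ j0.succ) / y (σ 0))
    rw [h2]
    exact isAlgebraic_one
  have hspan := Pool.Agent.W392.CG.span_top hn' ℓ' hred
  have hm' : n' * (n' + 1) * (n' + 2) < 2 * m := by
    refine lt_of_le_of_lt ?_ hm
    exact Nat.mul_le_mul (Nat.mul_le_mul hn'n (by omega)) (by omega)
  have heff : Effective K (Rf n') d Bd y := by
    refine hRf' n' hn' hℓ'0 hred hm' hli σ hσ hbas Bd fun P hPd hPB a v hv hv0 hsp => ?_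
    obtain ⟨i, hi⟩ : ∃ i, v i = 0 := by
      by_contra hcon
      push Not at hcon
      apply hsp
      rw [← hspan]
      congr 1
      ext φ
      constructor
      · rintro ⟨i, -, rfl⟩
        exact ⟨i, rfl⟩
      · rintro ⟨i, rfl⟩
        exact ⟨i, hcon i, rfl⟩
    refine hP P hPd hPB a v (fun φ => ?_) ⟨i, ?_⟩ (fun i => by rw [← hℓb i]; exact hv i) hv0
    · rw [hlf φ]
      refine ge_span P a (Set.range ℓ') y ?_ _ (by rw [hspan]; trivial)
      rintro _ ⟨i, rfl⟩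
      right
      rw [hv i]
      have : (0 : ℤ) ≤ v i := by positivity
      linarith
    · rw [← hℓb i, hv i, hi]
      simp
  obtain ⟨c, hc⟩ : Rf n' ∣ ∏ n' ∈ Finset.range (n + 1), Rf n' :=
    Finset.dvd_prod_of_mem _ (Finset.mem_range.mpr (by omega))
  have hc0 : 0 < c := by
    rcases Nat.eq_zero_or_pos c with h | h
    · rw [h, mul_zero] at hc
      exact absurd hc (Finset.prod_pos fun n' _ => hRf n').ne'
    · exact h
  rw [hc]
  exact (heff.pow hy0 hc0).lin _ hbs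

end Pool.Agent.TH152.DS
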