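import Pool.Agent.TH152.DS.CodeMain
import Pool.Agent.W603.PV.Ext

/-!
Systems of diagonal forms and their linear codes: hyperbolicity.
-/

set_option autoImplicit false

open FF MvPolynomial Pool.Agent.W603.LV Pool.Agent.W602.GT Pool.Agent.W602.Cov
open Pool.Agent.W603.PV Pool.Agent.W603.CX
open Pool.Agent.TH152.HY

namespace Pool.Agent.TH152.DS

variable {N r m : ℕ} {c : Fin r → Fin (N + 1) → ℂ}

/-- The code is intersecting: any two nonzero vectors of the code have a common nonzero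
coordinate. -/
def Intersecting (c : Fin r → Fin (N + 1) → ℂ) : Prop :=
  ∀ s ∈ Code c, ∀ t ∈ Code c, s ≠ 0 → t ≠ 0 → ∃ j, s j ≠ 0 ∧ t j ≠ 0

theorem intersecting_iff : Intersecting c ↔ ∀ κ, ¬ Splits c κ := by
  classical
  constructor
  · rintro h κ ⟨⟨s, hs, hs0, hsκ⟩, t, ht, ht0, htκ⟩
    obtain ⟨j, hj, hj'⟩ := h s hs t ht hs0 ht0
    by_cases hjκ : j ∈ κ
    · exact hj' (htκ j hjκ)
    · exact hj (hsκ j hjκ)
  · intro h s hs t ht hs0 ht0
    by_contra hcon
    push Not at hcon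
    refine h (Finset.univ.filter fun j => s j ≠ 0) ⟨⟨s, hs, hs0, fun j hj => ?_⟩, t, ht, ht0,
      fun j hj => hcon j (Finset.mem_filter.1 hj).2⟩
    by_contra h0
    exact hj (Finset.mem_filter.2 ⟨Finset.mem_univ _, h0⟩)

section curves

variable {K : Type} [Field K] [Algebra ℂ K] [IsFF ℂ K]

theorem pht_pow {k : ℕ} {f : Fin (k + 1) → K} (hf : ∃ j, f j ≠ 0) (hm : 0 < m) :
    pht ℂ (fun j => f j ^ m) = m * pht ℂ f := by
  have h1 : ∀ P : Place ℂ K, pord P (fun j => f j ^ m) = m * pord P f := by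
    intro P
    obtain ⟨i, hi, hi'⟩ := exists_pord P hf
    have hf' : ∃ j, f j ^ m ≠ 0 := ⟨i, pow_ne_zero m hi⟩
    obtain ⟨l, hl, hl'⟩ := exists_pord P (f := fun j => f j ^ m) hf'
    have hl0 : f l ≠ 0 := fun h => hl (by change f l ^ m = 0; rw [h, zero_pow hm.ne'])
    apply le_antisymm
    · have h2 := pord_le P (f := fun j => f j ^ m) (j := i) (pow_ne_zero m hi)
      rw [P.ord_pow, hi'] at h2
      exact h2
    · rw [← hl']
      change _ ≤ P.ord (f l ^ m)
      rw [P.ord_pow]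
      exact mul_le_mul_of_nonneg_left (pord_le P hl0) (by positivity)
  unfold pht
  rw [finsum_congr h1, ← mul_finsum]
  ring

/-- **Degrees of curves in diagonal systems.** -/
theorem deg_split (n N : ℕ) : ∃ R : ℕ, 0 < R ∧ ∀ {r m : ℕ} {c : Fin r → Fin (N + 1) → ℂ},
    Module.finrank ℂ (Code c) ≤ n + 1 → n * (n + 1) * (n + 2) < 2 * m →
    ∀ {K : Type} [Field K] [Algebra ℂ K] [IsFF ℂ K] {f : Fin (N + 1) → K}, (∃ j, f j ≠ 0) →
    (∀ i, val f (diag m c i) = 0) →
    (∃ i j, f j ≠ 0 ∧ f i / f j ∉ Set.range (algebraMap ℂ K)) →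
    (∃ κ, Splits c κ ∧ ∀ i, ∑ j ∈ κ, algebraMap ℂ K (c i j) * f j ^ m = 0) ∨
      m * pht ℂ f ≤ R * canDeg ℂ K := by
  obtain ⟨R, hR, hmain⟩ := dichotomy n N
  refine ⟨R, hR, ?_⟩
  intro r m c hc hm K _ _ _ f hf hX ⟨i1, j1, hj1, hij1⟩
  have htrans : Transcendental ℂ (f i1 / f j1) := fun h => hij1 (mem_range_of_alg h)
  have halg : Algebra.IsAlgebraic (coords ℂ f) K := by
    have h4 := (IsFF.basis (k := ℂ) htrans).isAlgebraic_field
    refine HY.alg_mono ?_ h4
    rw [IntermediateField.adjoin_le_iff]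
    rintro _ ⟨u, rfl⟩
    exact IntermediateField.subset_adjoin ℂ _ ⟨i1, j1, hj1, rfl⟩
  obtain ⟨j0, hj0⟩ := hf
  rcases hmain hc hm (w := 1) le_rfl (Function.ne_iff.2 ⟨j0, hj0⟩)
    (fun i => by rw [← val_diag]; exact hX i) halg
    (by rw [IsFF.trdeg (k := ℂ) (K := K)]; norm_num) with h | h
  · exact Or.inl h
  · right
    have h2 := deg_bound (b := fun j => f j ^ m) ⟨j0, pow_ne_zero m hj0⟩ h.1 ∅ (fun P _ h => h)
    rw [pht_pow ⟨j0, hj0⟩ (pos_of hm)] at h2
    simpa [euler] using h2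

/-- constant points have height zero -/
theorem pht_const {k : ℕ} {f : Fin (k + 1) → K} (hf : ∃ j, f j ≠ 0)
    (h : ∀ i j, f j ≠ 0 → f i / f j ∈ Set.range (algebraMap ℂ K)) : pht ℂ f ≤ 0 := by
  obtain ⟨j, hj⟩ := hf
  refine (pht_le f hj).trans (le_of_eq (Finset.sum_eq_zero fun i _ => ?_))
  obtain ⟨a, ha⟩ := h i j hj
  rw [← ha]
  exact hgt_algebraic (isAlgebraic_algebraMap a)

end curves

theorem split_orbit (hm : 0 < m) {κ : Finset (Fin (N + 1))} (hκ : Splits c κ) :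
    HasOrbit (∅ : Set (Fin (N + 1))) (diag m c) := by
  classical
  obtain ⟨⟨s, hs, hs0, hsκ⟩, t, ht, ht0, htκ⟩ := hκ
  obtain ⟨a, ha0, haκ, haX⟩ := root_code hm hs hs0 hsκ
  obtain ⟨b, hb0, hbκ, hbX⟩ := root_code (κ := κᶜ) hm ht ht0
    (fun j hj => htκ j (by simpa using hj))
  have hbκ' : ∀ j ∈ κ, b j = 0 := fun j hj => hbκ j (by simpa using hj)
  have hline := (line_of hm ha0 hb0 haκ hbκ' haX hbX).2
  obtain ⟨ja, hja⟩ := Function.ne_iff.1 ha0
  obtain ⟨jb, hjb⟩ := Function.ne_iff.1 hb0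
  have h1 : ja ∈ κ := by
    by_contra h
    exact hja (haκ ja h)
  have h2 : jb ∉ κ := fun h => hjb (hbκ' jb h)
  have he : ∀ u : ℂ, (fun j => (a + b) j * u ^ (if j ∈ κ then (1 : ℤ) else 0)) =
      u • a + (1 : ℂ) • b := by
    intro u
    funext j
    simp only [Pi.add_apply, Pi.smul_apply, smul_eq_mul, one_mul]
    by_cases hj : j ∈ κ
    · rw [if_pos hj, hbκ' j hj, zpow_one]
      ring
    · rw [if_neg hj, haκ j hj, zpow_zero]
      ring
  refine ⟨a + b, fun j => if j ∈ κ then 1 else 0, fun u hu => ⟨?_, ?_, fun i => ?_⟩, ja, jb, ?_,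
    ?_, ?_⟩
  · rw [he]
    intro h0
    have h3 := congrFun h0 ja
    simp only [Pi.add_apply, Pi.smul_apply, smul_eq_mul, one_mul, hbκ' ja h1, add_zero,
      Pi.zero_apply] at h3
    exact mul_ne_zero hu hja h3
  · exact fun j hj => absurd hj (Set.notMem_empty j)
  · rw [he, ← val_eval]
    exact hline u 1 i
  · rw [Pi.add_apply, hbκ' ja h1, add_zero]
    exact hja
  · rw [Pi.add_apply, haκ jb h2, zero_add]
    exact hjb
  · simp only [if_pos h1, if_neg h2]
    norm_num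

/-- **Hyperbolicity of diagonal systems.** -/
theorem hyperbolic_tfae (n N : ℕ) : ∃ R : ℕ, 0 < R ∧ ∀ {r m : ℕ} {c : Fin r → Fin (N + 1) → ℂ},
    Module.finrank ℂ (Code c) ≤ n + 1 → n * (n + 1) * (n + 2) < 2 * m →
    [Intersecting c, AlgHyperbolic R (diag m c), BoundedOnCurves (diag m c),
      ∀ P, ¬ GmCurve (diag m c) P, AllGeneralType (diag m c),
      ∀ f, ¬ Pool.Agent.H159R3.GGL.EntireCurve (diag m c) f,
      ∀ a b, ¬ Line (diag m c) a b].TFAE := by
  obtain ⟨R, hR, hdeg⟩ := deg_split n N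
  refine ⟨R, hR, ?_⟩
  intro r m c hc hm
  have hm0 := pos_of hm
  obtain ⟨R', -, hdich⟩ := dichotomy n N
  tfae_have 1 → 2 := by
    intro h K _ _ _ f hf hX
    rw [intersecting_iff] at h
    have h0 : (0 : ℤ) ≤ R * max (canDeg ℂ K) 0 := by positivity
    by_cases hnc : ∃ i j, f j ≠ 0 ∧ f i / f j ∉ Set.range (algebraMap ℂ K)
    · rcases hdeg hc hm hf hX hnc with ⟨κ, hκ, -⟩ | h1
      · exact absurd hκ (h κ)
      · rcases le_or_gt (pht ℂ f) 0 with h2 | h2
        · exact h2.trans h0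
        · have h3 : (1 : ℤ) ≤ m := by exact_mod_cast hm0
          have h4 : (R : ℤ) * canDeg ℂ K ≤ R * max (canDeg ℂ K) 0 :=
            mul_le_mul_of_nonneg_left (le_max_left _ _) (by positivity)
          nlinarith
    · push Not at hnc
      exact (pht_const hf hnc).trans h0
  tfae_have 2 → 3 := fun h K _ _ _ => ⟨_, fun f h0 h1 => h K f h0 h1⟩
  tfae_have 3 → 1 := by
    intro h
    rw [intersecting_iff]
    intro κ hκ
    obtain ⟨B, hB⟩ := h (RatFunc ℂ)
    obtain ⟨f, hf, hlt⟩ := unbounded_orbit (split_orbit hm0 hκ) B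
    exact absurd (hB f hf.1 hf.2.1) (not_le.2 hlt)
  tfae_have 1 → 5 := by
    intro h K _ _ w y hw hy
    rw [intersecting_iff] at h
    rcases hdich hc hm hw hy.ne (fun i => by rw [← val_diag]; exact hy.mem i)
      (by rw [hy.gen]; infer_instance) hy.dim with ⟨κ, hκ, -⟩ | h1
    · exact absurd hκ (h κ)
    · exact h1.2
  tfae_have 5 → 4 := by
    intro h P hP
    obtain ⟨K, _, _, y, hy, hgt⟩ := sub_of_gm (fun i => form_diag i) hP
    exact hgt (h K 1 y le_rfl hy)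
  tfae_have 1 → 6 := by
    intro h f hf
    rw [intersecting_iff] at h
    obtain ⟨κ, hκ, -⟩ := curve_split hc hm hf.1 (fun z => (hf.2.1 z).1) (fun z i => by
      rw [← val_diag', val_eval]
      exact (hf.2.1 z).2 i) hf.2.2
    exact h κ hκ
  tfae_have 6 → 4 := fun h P hP => h _ (gm_entire hP)
  tfae_have 4 → 7 := by
    intro h a b hab
    have h1 := line_key (F := diag m c) (G := (1 : MvPolynomial (Fin (N + 1)) ℂ))
      (fun P hP => absurd hP (h P)) hab
    unfold val at h1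
    rw [map_one] at h1
    exact one_ne_zero h1
  tfae_have 7 → 1 := by
    intro h
    rw [intersecting_iff]
    intro κ hκ
    obtain ⟨a, b, hab⟩ := exists_line hm0 hκ
    exact h a b hab
  tfae_finish

end Pool.Agent.TH152.DS
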