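import Pool.Agent.TH152.DS.Uni
import Pool.Agent.TH152.DS.UniD
import Pool.Agent.W602.GT.SpDefs

/-!
Systems of diagonal forms and their linear codes: subvarieties.
-/

set_option autoImplicit false

open FF Pool.Agent.W603.LV Pool.Agent.W602.GT Pool.Agent.W602.Cov Pool.Agent.W602.Cov.G
open Pool.Agent.W168.CG.PGR Pool.Agent.TH152.AC Pool.Agent.TH152.HY IntermediateField

namespace Pool.Agent.TH152.DS

variable {N r : ℕ}

/-- The linear code of the vectors `t` with `∑ j, c i j * t j = 0` for all `i`. -/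
def Code (c : Fin r → Fin (N + 1) → ℂ) : Submodule ℂ (Fin (N + 1) → ℂ) where
  carrier := {t | ∀ i, ∑ j, c i j * t j = 0}
  add_mem' {s t} hs ht i := by
    have h1 := hs i
    have h2 := ht i
    simp only [Pi.add_apply, mul_add, Finset.sum_add_distrib, h1, h2, add_zero]
  zero_mem' i := by simp
  smul_mem' a t ht i := by
    have h1 := ht i
    have h2 : ∑ j, c i j * (a • t) j = a * ∑ j, c i j * t j := by
      rw [Finset.mul_sum]
      exact Finset.sum_congr rfl fun j _ => by rw [Pi.smul_apply, smul_eq_mul]; ring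
    rw [h2, h1, mul_zero]

theorem mem_code {c : Fin r → Fin (N + 1) → ℂ} {t : Fin (N + 1) → ℂ} :
    t ∈ Code c ↔ ∀ i, ∑ j, c i j * t j = 0 := Iff.rfl

/-- The code contains a nonzero vector supported in `κ` and a nonzero vector supported in the
complement of `κ`. -/
def Splits (c : Fin r → Fin (N + 1) → ℂ) (κ : Finset (Fin (N + 1))) : Prop :=
  (∃ t ∈ Code c, t ≠ 0 ∧ ∀ j ∉ κ, t j = 0) ∧ ∃ t ∈ Code c, t ≠ 0 ∧ ∀ j ∈ κ, t j = 0

variable {K : Type} [Field K] [Algebra ℂ K]

/-- the linear form with the coefficients `a` -/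
def form (a : Fin (N + 1) → ℂ) : Form N := ∑ j, a j • LinearMap.proj j

theorem form_apply (a t : Fin (N + 1) → ℂ) : form a t = ∑ j, a j * t j := by
  unfold form
  rw [LinearMap.sum_apply]
  exact Finset.sum_congr rfl fun j _ => by rw [LinearMap.smul_apply, LinearMap.proj_apply, smul_eq_mul]

theorem lf_form (a : Fin (N + 1) → ℂ) (b : Fin (N + 1) → K) :
    lf (form a) b = ∑ j, algebraMap ℂ K (a j) * b j := by
  unfold lf
  refine Finset.sum_congr rfl fun j _ => ?_
  rw [form_apply]
  congr 2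
  rw [Finset.sum_eq_single j]
  · simp
  · intro k _ hk
    rw [Pi.single_apply, if_neg hk, mul_zero]
  · intro h
    exact absurd (Finset.mem_univ j) h

theorem alg_of_le {F₁ F₂ : IntermediateField ℂ K} (h : F₁ ≤ F₂)
    (h1 : Algebra.IsAlgebraic F₁ K) : Algebra.IsAlgebraic F₂ K := by
  let _ : Algebra F₁ F₂ := (inclusion h).toRingHom.toAlgebra
  have : IsScalarTower F₁ F₂ K := IsScalarTower.of_algebraMap_eq fun x => rfl
  exact Algebra.IsAlgebraic.extendScalars (R := F₁) (inclusion h).toRingHom.injective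

/-- `K` is algebraic over `E` if it is algebraic over a field generated by roots of elements
of `E` -/
theorem alg_roots {E : IntermediateField ℂ K} {S : Set K} {m : ℕ} (hm : 0 < m)
    (hS : ∀ f ∈ S, f ^ m ∈ E) (h : Algebra.IsAlgebraic (adjoin ℂ S) K) :
    Algebra.IsAlgebraic E K := by
  let E' : IntermediateField E K := algebraicClosure E K
  have h1 : adjoin ℂ S ≤ E'.restrictScalars ℂ := by
    rw [adjoin_le_iff]
    intro f hf
    change f ∈ algebraicClosure E K
    rw [mem_algebraicClosure_iff]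
    refine ⟨Polynomial.X ^ m - Polynomial.C (⟨f ^ m, hS f hf⟩ : E),
      Polynomial.X_pow_sub_C_ne_zero hm _, ?_⟩
    rw [map_sub, map_pow, Polynomial.aeval_X, Polynomial.aeval_C]
    exact sub_self _
  have h2 := alg_of_le h1 h
  have h3 : Algebra.IsAlgebraic E' K := h2
  have h4 : Algebra.IsAlgebraic E E' := inferInstanceAs (Algebra.IsAlgebraic E (algebraicClosure E K))
  exact Algebra.IsAlgebraic.trans E E' K

theorem Effective.general {R w : ℕ} (hR : 0 < R) {ι : Type} {b : ι → K}
    (h : Effective K R w (fun _ => False) b) {σ : Fin (w + 1) → ι} (hσ : b (σ 0) ≠ 0)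
    (hbas : IsTranscendenceBasis ℂ (fun j : Fin w => b (σ j.succ) / b (σ 0)))
    (htr : Algebra.trdeg ℂ K = w) : GeneralType ℂ K w := by
  obtain ⟨ω, h1, ⟨D, hD⟩, -, h4⟩ := h
  refine ⟨htr, R, hR, fun j E => ω E * b (σ j), fun j M E => ?_, fun P hP j E hE =>
    h4 P hP (fun h => h) (σ j) E hE, D, mul_ne_zero hD hσ, ?_⟩
  · change ω _ * b (σ j) = _
    rw [h1 M E]
    ring
  · have e : (fun i : Fin w => ω D * b (σ i.succ) / (ω D * b (σ 0))) =
        fun i => b (σ i.succ) / b (σ 0) := by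
      funext i
      rw [mul_div_mul_left _ _ hD]
    rw [e]
    exact hbas.1

/-- **Subvarieties of diagonal systems.** -/
theorem dichotomy (n N : ℕ) : ∃ R : ℕ, 0 < R ∧ ∀ {r m : ℕ} {c : Fin r → Fin (N + 1) → ℂ},
    Module.finrank ℂ (Code c) ≤ n + 1 → n * (n + 1) * (n + 2) < 2 * m →
    ∀ {K : Type} [Field K] [Algebra ℂ K] {w : ℕ} {y : Fin (N + 1) → K}, 1 ≤ w → y ≠ 0 →
    (∀ i, ∑ j, algebraMap ℂ K (c i j) * y j ^ m = 0) →
    Algebra.IsAlgebraic (coords ℂ y) K → Algebra.trdeg ℂ K = w →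
    (∃ κ, Splits c κ ∧ ∀ i, ∑ j ∈ κ, algebraMap ℂ K (c i j) * y j ^ m = 0) ∨
      (Effective K R w (fun _ => False) (fun j => y j ^ m) ∧ GeneralType ℂ K w) := by
  classical
  have hch : ∀ n' q' : ℕ, ∃ R : ℕ, 0 < R ∧ (1 ≤ n' → ∀ {ℓ : Fin q' → Form n'},
      (∀ i, ℓ i ≠ 0) → ¬ Reducible ℓ → ∀ {m : ℕ}, n' * (n' + 1) * (n' + 2) < 2 * m →
      ∀ {d : ℕ} {K : Type} [Field K] [Algebra ℂ K] {x : Fin (n' + 1) → K},
      LinearIndependent ℂ x → ∀ σ : Fin (d + 1) → Fin (n' + 1), x (σ 0) ≠ 0 →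
      IsTranscendenceBasis ℂ (fun j : Fin d => x (σ j.succ) / x (σ 0)) →
      ∀ Bd : Place ℂ K → Prop,
      (∀ P : Place ℂ K, Divisorial d P → ¬ Bd P → HighAt ℓ x m P) →
      Effective K R d Bd x) := by
    intro n' q'
    by_cases h : 1 ≤ n'
    · obtain ⟨R, h1, h2⟩ := sub_uniform n' q' h
      exact ⟨R, h1, fun _ => h2⟩
    · exact ⟨1, one_pos, fun h' => absurd h' h⟩
  choose Rf hRf hRf' using hch
  set R : ℕ := ∏ n' ∈ Finset.range (n + 1), ∏ q' ∈ Finset.range (N + 2), Rf n' q' with hRdef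
  have hRpos : 0 < R := Finset.prod_pos fun n' _ => Finset.prod_pos fun q' _ => hRf n' q'
  refine ⟨R, hRpos, ?_⟩
  intro r m c hc hm K _ _ w y hw hy hyc halg htr
  have hm0 : 0 < m := by
    rcases Nat.eq_zero_or_pos m with h | h
    · rw [h] at hm
      omega
    · exact h
  obtain ⟨b, hbdef⟩ : ∃ b : Fin (N + 1) → K, b = fun j => y j ^ m := ⟨_, rfl⟩
  have hbj : ∀ j, b j = y j ^ m := fun j => by rw [hbdef]
  have hb : b ≠ 0 := by
    obtain ⟨j, hj⟩ := Function.ne_iff.1 hy
    intro h0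
    have h1 := congrFun h0 j
    rw [hbj] at h1
    exact hj (pow_eq_zero_iff hm0.ne' |>.1 h1)
  obtain ⟨n', A, S, z, -, hSA, hli, hlf⟩ := exists_coords hb
  have hAinj : ∀ v, A v = 0 → v = 0 := fun v hv => by rw [← hSA v, hv, map_zero]
  -- the image of `A` is contained in the code
  have hφ0 : ∀ φ : Form N, lf φ b = 0 → ∀ v, φ (A v) = 0 := by
    intro φ h0 v
    rw [hlf] at h0
    by_contra hne
    have h1 : φ ∘ₗ A ≠ 0 := fun h => hne (by rw [← LinearMap.comp_apply, h, LinearMap.zero_apply])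
    exact lf_ne_of_li hli h1 h0
  have hcode : ∀ v, A v ∈ Code c := by
    intro v i
    have h1 := hφ0 (form (c i)) (by
      rw [lf_form]
      simp only [hbj]
      exact hyc i) v
    rwa [form_apply] at h1
  have hn' : n' ≤ n := by
    have h1 : LinearMap.ker A = ⊥ := by
      rw [Submodule.eq_bot_iff]
      exact fun v hv => hAinj v hv
    have h2 : Module.finrank ℂ (LinearMap.range A) = n' + 1 := by
      rw [LinearMap.finrank_range_of_inj (LinearMap.ker_eq_bot.1 h1)]
      simp
    have h3 : LinearMap.range A ≤ Code c := by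
      rintro _ ⟨v, rfl⟩
      exact hcode v
    have h4 := Submodule.finrank_mono h3
    omega
  -- the nonzero coordinates
  obtain ⟨J, hJ⟩ : ∃ J : Finset (Fin (N + 1)), J = Finset.univ.filter fun j => y j ≠ 0 := ⟨_, rfl⟩
  have hmemJ : ∀ j, j ∈ J ↔ y j ≠ 0 := fun j => by rw [hJ]; simp
  obtain ⟨ε⟩ : Nonempty (Fin J.card ≃ J) := ⟨J.equivFin.symm⟩
  obtain ⟨ℓ, hℓdef⟩ : ∃ ℓ : Fin J.card → Form n', ℓ = fun i => LinearMap.proj (ε i).1 ∘ₗ A :=
    ⟨_, rfl⟩
  have hℓ : ∀ i v, ℓ i v = A v (ε i).1 := fun i v => by rw [hℓdef]; rfl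
  have hlfz : ∀ i, lf (ℓ i) z = y (ε i).1 ^ m := by
    intro i
    rw [hℓdef, ← hlf, lf_proj, hbj]
  have hyε : ∀ i, y (ε i).1 ≠ 0 := fun i => (hmemJ _).1 (ε i).2
  have hℓ0 : ∀ i, ℓ i ≠ 0 := by
    intro i h0
    have h1 := hlfz i
    rw [h0] at h1
    have h2 : lf (0 : Form n') z = 0 := by simp [lf]
    rw [h2] at h1
    exact pow_ne_zero m (hyε i) h1.symm
  have hzero : ∀ j, y j = 0 → ∀ v, A v j = 0 := by
    intro j hj v
    have h1 := hφ0 (LinearMap.proj j) (by rw [lf_proj, hbj, hj, zero_pow hm0.ne']) v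
    exact h1
  by_cases hred : Reducible ℓ
  · left
    obtain ⟨V1, V2, hV1, hV2, hcompl, hV⟩ := hred
    obtain ⟨κ, hκ⟩ : ∃ κ : Finset (Fin (N + 1)),
        κ = Finset.univ.filter fun j => ∀ v ∈ V2, A v j = 0 := ⟨_, rfl⟩
    have hin : ∀ j ∈ κ, ∀ v ∈ V2, A v j = 0 := by
      intro j hj
      rw [hκ] at hj
      exact (Finset.mem_filter.1 hj).2
    have hout : ∀ j ∉ κ, ∀ v ∈ V1, A v j = 0 := by
      intro j hj v hv
      by_cases h0 : y j = 0
      · exact hzero j h0 v
      · obtain ⟨i, hi⟩ : ∃ i, (ε i).1 = j :=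
          ⟨ε.symm ⟨j, (hmemJ j).2 h0⟩, by rw [Equiv.apply_symm_apply]⟩
        rcases hV i with h | h
        · rw [← hi, ← hℓ]
          exact h v hv
        · exfalso
          apply hj
          rw [hκ]
          refine Finset.mem_filter.2 ⟨Finset.mem_univ _, fun u hu => ?_⟩
          rw [← hi, ← hℓ]
          exact h u hu
    refine ⟨κ, ⟨?_, ?_⟩, fun i => ?_⟩
    · obtain ⟨v, hv, hv0⟩ := (Submodule.ne_bot_iff _).1 hV1
      exact ⟨A v, hcode v, fun h => hv0 (hAinj v h), fun j hj => hout j hj v hv⟩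
    · obtain ⟨v, hv, hv0⟩ := (Submodule.ne_bot_iff _).1 hV2
      exact ⟨A v, hcode v, fun h => hv0 (hAinj v h), fun j hj => hin j hj v hv⟩
    · obtain ⟨a, ha⟩ : ∃ a : Fin (N + 1) → ℂ, a = fun j => if j ∈ κ then c i j else 0 := ⟨_, rfl⟩
      have h0 : form a ∘ₗ A = 0 := by
        apply LinearMap.ext
        intro u
        have h1 : u ∈ V1 ⊔ V2 := by rw [hcompl.sup_eq_top]; trivial
        obtain ⟨v1, hv1, v2, hv2, h12⟩ := Submodule.mem_sup.mp h1
        rw [LinearMap.comp_apply, ← h12, map_add, form_apply, LinearMap.zero_apply]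
        have h2 := hcode v1 i
        rw [← h2]
        refine Finset.sum_congr rfl fun j _ => ?_
        rw [ha]
        by_cases hj : j ∈ κ
        · simp only [if_pos hj, Pi.add_apply, hin j hj v2 hv2, add_zero]
        · simp only [if_neg hj, hout j hj v1 hv1, mul_zero, zero_mul]
      have h1 : lf (form a) b = 0 := by
        rw [hlf, h0]
        simp [lf]
      rw [lf_form] at h1
      rw [← h1, ← Finset.sum_subset (Finset.subset_univ κ)]
      · refine Finset.sum_congr rfl fun j hj => ?_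
        rw [ha, hbj]
        simp only [if_pos hj]
      · intro j _ hj
        rw [ha]
        simp only [if_neg hj, map_zero, zero_mul]
  · right
    have hz0 : z 0 ≠ 0 := hli.ne_zero 0
    have hbs : ∀ j, b j = ∑ k, (LinearMap.proj j ∘ₗ A) (Pi.single k 1) • z k := by
      intro j
      have h1 := hlf (LinearMap.proj j)
      rw [lf_proj] at h1
      rw [h1, lf_eq_smul]
    have hsub : ∀ i, b i / z 0 ∈ adjoin ℂ (Set.range fun k => z k / z 0) := by
      intro i
      rw [hbs i, Finset.sum_div]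
      refine sum_mem fun k _ => ?_
      rw [smul_div_assoc, Algebra.smul_def]
      have h1 : z k / z 0 ∈ Set.range fun k => z k / z 0 := ⟨k, rfl⟩
      exact mul_mem (_root_.algebraMap_mem _ _) (subset_adjoin ℂ _ h1)
    have halg' : Algebra.IsAlgebraic (adjoin ℂ (Set.range fun k => z k / z 0)) K := by
      refine alg_roots hm0 ?_ halg
      rintro _ ⟨i, j, hj, rfl⟩
      have hbj0 : b j ≠ 0 := by rw [hbj]; exact pow_ne_zero m hj
      have e : (y i / y j) ^ m = (b i / z 0) / (b j / z 0) := by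
        rw [div_pow, ← hbj, ← hbj]
        field_simp
      rw [e]
      exact div_mem (hsub i) (hsub j)
    obtain ⟨σ, hσ, hbas⟩ := exists_sigma hz0 halg' htr
    have hn1 : 1 ≤ n' := by
      by_contra h0
      obtain rfl : n' = 0 := by omega
      have j0 : Fin w := ⟨0, hw⟩
      apply hbas.1.transcendental j0
      have h2 : z (σ j0.succ) / z (σ 0) = 1 := by
        rw [Fin.eq_zero (σ j0.succ), Fin.eq_zero (σ 0)]
        exact div_self hz0
      change IsAlgebraic ℂ (z (σ j0.succ) / z (σ 0))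
      rw [h2]
      exact isAlgebraic_one
    have hspan := Pool.Agent.W392.CG.span_top hn1 ℓ hred
    have hm' : n' * (n' + 1) * (n' + 2) < 2 * m := by
      refine lt_of_le_of_lt ?_ hm
      exact Nat.mul_le_mul (Nat.mul_le_mul hn' (by omega)) (by omega)
    have heff : Effective K (Rf n' J.card) w (fun _ => False) z := by
      refine hRf' n' J.card hn1 hℓ0 hred hm' hli σ hσ hbas _ fun P _ _ a v hv hv0 hsp => ?_
      obtain ⟨i0, hi0⟩ : ∃ i, v i = 0 := by
        by_contra hcon
        push Not at hcon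
        apply hsp
        rw [← hspan]
        congr 1
        ext φ
        constructor
        · rintro ⟨i, -, rfl⟩
          exact ⟨i, rfl⟩
        · rintro ⟨i, rfl⟩
          exact ⟨i, hcon i, rfl⟩
      obtain ⟨i, hi⟩ := Function.ne_iff.1 hv0
      refine ⟨i, ?_⟩
      have h1 := hv i
      have h2 := hv i0
      rw [hlfz, P.ord_pow] at h1 h2
      rw [hi0] at h2
      have hi' : (v i : ℤ) ≠ 0 := by
        intro h
        exact hi (by exact_mod_cast h)
      have h3 : (v i : ℤ) = m * (P.ord (y (ε i).1) - P.ord (y (ε i0).1)) := by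
        have : (a : ℤ) + (0 : ℕ) = a := by simp
        rw [this] at h2
        linear_combination h2 - h1
      have h4 : (0 : ℤ) < P.ord (y (ε i).1) - P.ord (y (ε i0).1) := by
        have h5 : (0 : ℤ) < v i := by
          have : (0 : ℤ) ≤ v i := by positivity
          omega
        rw [h3] at h5
        exact pos_of_mul_pos_right h5 (by positivity)
      have h5 : (m : ℤ) ≤ v i := by
        rw [h3]
        nlinarith [h4, (by positivity : (0 : ℤ) ≤ m)]
      exact_mod_cast h5
    have hdvd : Rf n' J.card ∣ R := by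
      have h1 : J.card < N + 2 := by
        have := J.card_le_univ
        rw [Fintype.card_fin] at this
        omega
      exact (Finset.dvd_prod_of_mem _ (Finset.mem_range.2 h1)).trans
        (Finset.dvd_prod_of_mem (fun n' => ∏ q' ∈ Finset.range (N + 2), Rf n' q')
          (Finset.mem_range.2 (by omega)))
    obtain ⟨e, he⟩ := hdvd
    have he0 : 0 < e := by
      rcases Nat.eq_zero_or_pos e with h | h
      · rw [h, mul_zero] at he
        omega
      · exact h
    have heffb : Effective K R w (fun _ => False) b := by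
      rw [he]
      exact (heff.pow hz0 he0).lin _ hbs
    have hgen : GeneralType ℂ K w := heff.general (hRf n' J.card) hσ hbas htr
    rw [hbdef] at heffb
    exact ⟨heffb, hgen⟩

end Pool.Agent.TH152.DS
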