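import Pool.Agent.TH152.DS.LangDefs
import Pool.Agent.W603.PV.Hgt
import Pool.Agent.W603.LV.Defs

/-!
Degree bounds for curves.
-/

set_option autoImplicit false

open FF Pool.Agent.W603.LV Pool.Agent.W602.GT Pool.Agent.W603.PV

namespace Pool.Agent.TH152.DS

variable {L : Type} [Field L] [Algebra ℂ L]

theorem divisorial_one (P : Place ℂ L) : Divisorial 1 P := by
  have : IsEmpty (Fin (1 - 1)) := inferInstanceAs (IsEmpty (Fin 0))
  refine ⟨fun i => i.elim0, fun F hF => ?_⟩
  obtain ⟨c, rfl⟩ : ∃ c, MvPolynomial.C c = F :=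
    (MvPolynomial.C_surjective (Fin (1 - 1))) F
  have hc : c ≠ 0 := by
    rintro rfl
    exact hF (MvPolynomial.C_0)
  rw [MvPolynomial.aeval_C]
  exact ⟨fun h0 => hc ((map_eq_zero _).mp h0), P.ord_const hc⟩

variable [IsFF ℂ L]

theorem derReg_of (P : Place ℂ L) {D : Derivation ℂ L L} (hD : D ≠ 0) :
    DerReg P ((D (unif P))⁻¹ • D) := by
  intro f hf
  have h0 := der_pi_ne_zero hD P (ord_unif P)
  exact der_reg P (ord_unif P) ((D (unif P))⁻¹ • D) (by simp [h0]) hf

omit [IsFF ℂ L] in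
theorem unif_ne (P : Place ℂ L) : unif P ≠ 0 := by
  intro h
  have := ord_unif P
  rw [h, P.ord_zero] at this
  omega

theorem derLog_of (P : Place ℂ L) {D : Derivation ℂ L L} (hD : D ≠ 0) :
    DerLog P ((unif P * (D (unif P))⁻¹) • D) := by
  intro f
  have h0 := der_pi_ne_zero hD P (ord_unif P)
  have hπ := unif_ne P
  by_cases hf : f = 0
  · rw [hf, div_zero]
    exact Ge.zero
  change Ge P 0 _
  rw [Derivation.coe_smul, Pi.smul_apply, smul_eq_mul]
  by_cases hord : P.ord f = 0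
  · obtain ⟨g, hg, hDf⟩ := der_mul P (ord_unif P) hD (f := f) (Or.inr hord.ge)
    have e : unif P * (D (unif P))⁻¹ * D f / f = unif P * g * f⁻¹ := by
      rw [hDf]
      field_simp
    rw [e]
    have h1 : Ge P 0 (unif P) := Or.inr (by rw [ord_unif]; norm_num)
    have h2 : Ge P 0 f⁻¹ := Or.inr (by rw [P.ord_inv, hord]; norm_num)
    have := (h1.mul hg).mul h2
    simpa using this
  · obtain ⟨h1, h2⟩ := ord_der P hD hord
    right
    have h3 : P.ord (D (unif P)) = vo P D := rfl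
    rw [P.ord_div (mul_ne_zero (mul_ne_zero hπ (inv_ne_zero h0)) h1) hf,
      P.ord_mul (mul_ne_zero hπ (inv_ne_zero h0)) h1, P.ord_mul hπ (inv_ne_zero h0), P.ord_inv,
      ord_unif, h2, h3]
    omega

/-- **Degree bound.** -/
theorem deg_bound {R k : ℕ} {Bd : Place ℂ L → Prop} {b : Fin (k + 1) → L} (hb : ∃ j, b j ≠ 0)
    (h : Effective L R 1 Bd b) (S : Finset (Place ℂ L)) (hS : ∀ P ∉ S, ¬ Bd P) :
    pht ℂ b ≤ R * euler S := by
  classical
  obtain ⟨ω, h1, ⟨D0, hD0⟩, h3, h4⟩ := h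
  obtain ⟨D, hDd⟩ : ∃ D, D = der ℂ L := ⟨_, rfl⟩
  have hD : D ≠ 0 := by rw [hDd]; exact der_ne
  have hsc : ∀ h : L, ω (fun _ => h • D) = h ^ R * ω (fun _ => D) := by
    intro h
    have h5 := h1 (Matrix.of fun _ _ => h) (fun _ => D)
    simpa using h5
  have hg : ω (fun _ => D) ≠ 0 := by
    obtain ⟨h, hh⟩ := der_smul (D' := D0 0) hD
    have e : D0 = fun _ => h • D := by
      funext i
      rw [Fin.eq_zero i, hh]
    rw [e, hsc] at hD0
    exact right_ne_zero_of_mul hD0
  obtain ⟨g, hgd⟩ : ∃ g, g = ω (fun _ => D) := ⟨_, rfl⟩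
  rw [← hgd] at hg
  have hloc : ∀ P : Place ℂ L,
      0 ≤ P.ord g - R * vo P D + R * (if P ∈ S then 1 else 0) + pord P b := by
    intro P
    obtain ⟨j, hj, hpj⟩ := exists_pord P hb
    have h0 := der_pi_ne_zero hD P (ord_unif P)
    have hvo : P.ord (D (unif P)) = vo P D := rfl
    by_cases hP : P ∈ S
    · rw [if_pos hP, mul_one]
      have h5 := h3 P (divisorial_one P) j (fun _ => (unif P * (D (unif P))⁻¹) • D)
        fun _ => derLog_of P hD
      change Ge P 0 (ω _ * b j) at h5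
      rw [hsc, ← hgd] at h5
      have hne : unif P * (D (unif P))⁻¹ ≠ 0 := mul_ne_zero (unif_ne P) (inv_ne_zero h0)
      have h6 := h5.resolve_left (mul_ne_zero (mul_ne_zero (pow_ne_zero _ hne) hg) hj)
      rw [P.ord_mul (mul_ne_zero (pow_ne_zero _ hne) hg) hj, P.ord_mul (pow_ne_zero _ hne) hg,
        P.ord_pow, P.ord_mul (unif_ne P) (inv_ne_zero h0), P.ord_inv, ord_unif, hvo, hpj] at h6
      linarith
    · rw [if_neg hP, mul_zero, add_zero]
      have h5 := h4 P (divisorial_one P) (hS P hP) j (fun _ => (D (unif P))⁻¹ • D)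
        fun _ => derReg_of P hD
      change Ge P 0 (ω _ * b j) at h5
      rw [hsc, ← hgd] at h5
      have hne : (D (unif P))⁻¹ ≠ 0 := inv_ne_zero h0
      have h6 := h5.resolve_left (mul_ne_zero (mul_ne_zero (pow_ne_zero _ hne) hg) hj)
      rw [P.ord_mul (mul_ne_zero (pow_ne_zero _ hne) hg) hj, P.ord_mul (pow_ne_zero _ hne) hg,
        P.ord_pow, P.ord_inv, hvo, hpj] at h6
      linarith
  obtain ⟨T1, hT1⟩ := exists_supp (k := ℂ) (Finset.univ : Finset (Fin (k + 1))) b
  set T : Finset (Place ℂ L) := ((finite_support (k := ℂ) g).toFinset ∪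
    (vo_finite hD).toFinset) ∪ (S ∪ T1) with hT
  have hsum := Finset.sum_nonneg (s := T) fun P _ => hloc P
  rw [Finset.sum_add_distrib, Finset.sum_add_distrib, Finset.sum_sub_distrib, ← Finset.mul_sum,
    ← Finset.mul_sum] at hsum
  have e1 : ∑ P ∈ T, P.ord g = 0 := by
    refine sum_ord_finset g T fun P hP => ?_
    rw [hT]
    exact Finset.mem_union_left _ (Finset.mem_union_left _ ((Set.Finite.mem_toFinset _).mpr hP))
  have e2 : ∑ P ∈ T, vo P D = - canDeg ℂ L := by
    refine canDeg_finset hD T fun P hP => ?_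
    rw [hT]
    exact Finset.mem_union_left _ (Finset.mem_union_right _ ((Set.Finite.mem_toFinset _).mpr hP))
  have e3 : ∑ P ∈ T, (if P ∈ S then 1 else 0 : ℤ) = S.card := by
    rw [Finset.sum_ite_mem]
    have : T ∩ S = S := by
      refine Finset.inter_eq_right.mpr fun P hP => ?_
      rw [hT]
      exact Finset.mem_union_right _ (Finset.mem_union_left _ hP)
    rw [this]
    simp
  have e4 : pht ℂ b = - ∑ P ∈ T, pord P b := by
    unfold pht
    rw [finsum_eq_sum_of_support_subset (s := T)]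
    intro P hP
    rw [Function.mem_support] at hP
    obtain ⟨j, hj, hpj⟩ := exists_pord P hb
    rw [hT, Finset.mem_coe]
    refine Finset.mem_union_right _ (Finset.mem_union_right _ (hT1 j (Finset.mem_univ _) P ?_))
    rw [hpj]
    exact hP
  rw [e1, e2, e3] at hsum
  unfold euler
  rw [e4]
  linarith

end Pool.Agent.TH152.DS
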