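import Pool.Agent.TH152.DS.Both
import Pool.Agent.TH152.DS.Curv

/-!
Degree bounds for curves in quasi-projective varieties with a highly ramified morphism to
projective space.
-/

set_option autoImplicit false

open FF MvPolynomial Pool.Agent.W603.LV Pool.Agent.W602.GT Pool.Agent.W602.Cov
open Pool.Agent.W602.Cov.G Pool.Agent.W602.Cov.R Pool.Agent.TH152.HY Pool.Agent.W603.PV

namespace Pool.Agent.TH152.DS

variable {N n q : ℕ}

/-- The morphism with homogeneous coordinates `a`, `b` to `P^N × P^n` is not constant. -/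
def Nonconstant {L : Type} [Field L] [Algebra ℂ L] (a : Fin (N + 1) → L) (b : Fin (n + 1) → L) :
    Prop :=
  (∃ i j, a j ≠ 0 ∧ a i / a j ∉ Set.range (algebraMap ℂ L)) ∨
    ∃ i j, b j ≠ 0 ∧ b i / b j ∉ Set.range (algebraMap ℂ L)

/-- The degrees of the nonconstant morphisms `f` from smooth curves `C` to `X - D` whose image is
not contained in `G = 0` are at most a constant times the Euler characteristic `2 g - 2 + s` of `C`:
`deg f^* O(0, 1) ≤ R₀ (2 g - 2 + s)` and `deg f^* O(1, 1) ≤ R (2 g - 2 + s)`. The curve `C` is given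
by its function field `L` and the set `S` of its `s` places at infinity, and `f` by the homogeneous
coordinates `a`, `b` over `L`. -/
def CurvesBounded (X D : BiSet N n) (G : BiPoly N n) (R₀ R : ℕ) : Prop :=
  ∀ (L : Type) [Field L] [Algebra ℂ L] [IsFF ℂ L] (S : Finset (Place ℂ L)) (a : Fin (N + 1) → L)
    (b : Fin (n + 1) → L), X.Mem a b → (∀ P ∉ S, ¬ CentreIn D a b P) → Nonconstant a b →
    aeval (Sum.elim a b) G ≠ 0 → pht ℂ b ≤ R₀ * euler S ∧ pht ℂ a + pht ℂ b ≤ R * euler S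

theorem mem_range_of_alg {L : Type} [Field L] [Algebra ℂ L] {h : L} (h1 : IsAlgebraic ℂ h) :
    h ∈ Set.range (algebraMap ℂ L) := by
  have h2 := IsAlgClosed.degree_eq_one_of_irreducible ℂ (minpoly.irreducible h1.isIntegral)
  exact minpoly.mem_range_of_degree_eq_one ℂ h h2

/-- the height of the point with coordinates `a i * b j` -/
theorem pht_prod {L : Type} [Field L] [Algebra ℂ L] [IsFF ℂ L] {R : ℕ} {Bd : Place ℂ L → Prop}
    {a : Fin (N + 1) → L} {b : Fin (n + 1) → L} (ha : ∃ j, a j ≠ 0) (hb : ∃ j, b j ≠ 0)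
    (h : Effective L R 1 Bd fun p : Fin (N + 1) × Fin (n + 1) => a p.1 * b p.2)
    (S : Finset (Place ℂ L)) (hS : ∀ P ∉ S, ¬ Bd P) : pht ℂ a + pht ℂ b ≤ R * euler S := by
  classical
  obtain ⟨j0, hj0⟩ := ha
  obtain ⟨k0, hk0⟩ := hb
  -- an enumeration of the pairs
  obtain ⟨M, hM⟩ : ∃ M, (N + 1) * (n + 1) = M + 1 := ⟨(N + 1) * (n + 1) - 1, by
    have : 0 < (N + 1) * (n + 1) := by positivity
    omega⟩
  let e : Fin (M + 1) ≃ Fin (N + 1) × Fin (n + 1) := (finCongr hM.symm).trans finProdFinEquiv.symm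
  let c : Fin (M + 1) → L := fun i => a (e i).1 * b (e i).2
  have hce : ∀ i, c i = a (e i).1 * b (e i).2 := fun _ => rfl
  have hc : ∃ j, c j ≠ 0 := ⟨e.symm (j0, k0), by
    rw [hce, Equiv.apply_symm_apply]
    exact mul_ne_zero hj0 hk0⟩
  have h1 : Effective L R 1 Bd c := by
    obtain ⟨ω, h1, h2, h3, h4⟩ := h
    exact ⟨ω, h1, h2, fun P hP i D hD => h3 P hP (e i) D hD,
      fun P hP hB i D hD => h4 P hP hB (e i) D hD⟩
  have h2 := deg_bound hc h1 S hS
  have h3 : ∀ P : Place ℂ L, pord P c = pord P a + pord P b := by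
    intro P
    obtain ⟨i, hi, hi'⟩ := exists_pord P (f := a) ⟨j0, hj0⟩
    obtain ⟨k, hk, hk'⟩ := exists_pord P (f := b) ⟨k0, hk0⟩
    obtain ⟨l, hl, hl'⟩ := exists_pord P hc
    apply le_antisymm
    · have h5 : c (e.symm (i, k)) ≠ 0 := by
        rw [hce, Equiv.apply_symm_apply]
        exact mul_ne_zero hi hk
      refine (pord_le P h5).trans (le_of_eq ?_)
      rw [hce, Equiv.apply_symm_apply, P.ord_mul hi hk, hi', hk']
    · rw [← hl', hce]
      rw [hce] at hl
      rw [P.ord_mul (left_ne_zero_of_mul hl) (right_ne_zero_of_mul hl)]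
      exact add_le_add (pord_le P (left_ne_zero_of_mul hl)) (pord_le P (right_ne_zero_of_mul hl))
  have hfin : ∀ {k : ℕ} (f : Fin (k + 1) → L), (∃ j, f j ≠ 0) →
      (Function.support fun P : Place ℂ L => pord P f).Finite := by
    intro k f hf
    obtain ⟨T1, hT1⟩ := exists_supp (k := ℂ) (Finset.univ : Finset (Fin (k + 1))) f
    refine (Finset.finite_toSet T1).subset fun P hP => ?_
    obtain ⟨j, hj, hpj⟩ := exists_pord P hf
    exact hT1 j (Finset.mem_univ _) P (by rw [hpj]; exact hP)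
  have h4 : pht ℂ c = pht ℂ a + pht ℂ b := by
    unfold pht
    rw [finsum_congr h3, finsum_add_distrib (hfin a ⟨j0, hj0⟩) (hfin b ⟨k0, hk0⟩)]
    ring
  rw [← h4]
  exact h2

theorem affine_bound (n q : ℕ) (hn : 1 ≤ n) : ∃ R0 : ℕ, 0 < R0 ∧
    ∀ {ℓ : Fin q → Form n} {m : ℕ}, ¬ Reducible ℓ → n * (n + 1) * (n + 2) < 2 * m →
    ∀ {N d : ℕ} {X D : BiSet N n}, RamifiedOff X D ℓ m → ∀ {K : Type} [Field K] [Algebra ℂ K]
      {a : Fin (N + 1) → K} {b : Fin (n + 1) → K}, X.FunctionField K a b →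
    Algebra.IsAlgebraic
      (IntermediateField.adjoin ℂ {f : K | ∃ i j, b j ≠ 0 ∧ f = b i / b j}) K →
    Algebra.trdeg ℂ K = d → 0 < d → ¬ Exc ℓ b → ¬ D.Mem a b →
    LogGeneralType ℂ K d (CentreIn D a b) ∧
    ∃ (G : BiPoly N n) (E E' : ℕ), BiHom G E E' ∧
      (∃ u v, QMem X D u v ∧ eval (Sum.elim u v) G ≠ 0) ∧
      ∃ R : ℕ, 0 < R ∧ CurvesBounded X D G R0 R := by
  classical
  obtain ⟨R0, hR0, hmain⟩ := sub_uniform' n q hn
  refine ⟨R0, hR0, ?_⟩
  intro ℓ m hr hm N d X D hram K _ _ a b hK halg htr hd hE hD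
  choose Dg mm c hrel using fun i j => exists_rel hK halg i j
  have hlb : ∀ i, lf (ℓ i) b ≠ 0 := fun i h0 => hE (Or.inl ⟨i, h0⟩)
  have hlam : ∀ κ : Finset (Fin q), ∃ φ : Form n, lf φ b ≠ 0 ∧
      (κ.Nonempty → κ ≠ Finset.univ → Flat ℓ κ ⊔ Flat ℓ κᶜ ≤ LinearMap.ker φ) := by
    intro κ
    by_cases hκ : κ.Nonempty ∧ κ ≠ Finset.univ
    · by_contra hcon
      push Not at hcon
      refine hE (Or.inr ⟨κ, hκ.1, hκ.2, fun φ hφ => ?_⟩)
      by_contra hne
      exact (hcon φ hne).2.2 hφ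
    · obtain ⟨k0, hk0⟩ := Function.ne_iff.mp hK.mem.2.1
      refine ⟨LinearMap.proj k0, ?_, fun h1 h2 => absurd ⟨h1, h2⟩ hκ⟩
      rw [Pool.Agent.W521.RC.GNB.lf_proj]
      exact hk0
  choose lam hlam0 hlam using hlam
  let R : MvPolynomial (Fin (n + 1)) ℂ :=
    ∏ i : Fin (N + 1), ∏ j : Fin (N + 1), c i j (mm i j)
  let Q : MvPolynomial (Fin (n + 1)) ℂ := R * ((∏ i, li (ℓ i)) *
    ∏ κ : Finset (Fin q), li (lam κ))
  obtain ⟨E, hQh⟩ : ∃ E, Q.IsHomogeneous E :=
    ⟨_, (IsHomogeneous.prod _ _ _ fun i _ => IsHomogeneous.prod _ _ _ fun j _ =>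
      (hrel i j).1.hom _ le_rfl).mul ((IsHomogeneous.prod _ _ _ fun i _ => li_hom _).mul
      (IsHomogeneous.prod _ _ _ fun κ _ => li_hom _))⟩
  have hsplit : ∀ {L : Type} [Field L] [Algebra ℂ L] (y : Fin (n + 1) → L), aeval y Q ≠ 0 →
      (∀ i j, aeval y (c i j (mm i j)) ≠ 0) ∧ (∀ i, lf (ℓ i) y ≠ 0) ∧ ∀ κ, lf (lam κ) y ≠ 0 := by
    intro L _ _ y hy
    simp only [Q, R, map_mul, map_prod, aeval_li] at hy
    refine ⟨fun i j h0 => hy ?_, fun i h0 => hy ?_, fun κ h0 => hy ?_⟩
    · rw [Finset.prod_eq_zero (Finset.mem_univ i) (Finset.prod_eq_zero (Finset.mem_univ j) h0),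
        zero_mul]
    · rw [Finset.prod_eq_zero (Finset.mem_univ i) h0, zero_mul, mul_zero]
    · rw [Finset.prod_eq_zero (Finset.mem_univ κ) h0, mul_zero, mul_zero]
  have hbQ : aeval b Q ≠ 0 := by
    simp only [Q, R, map_mul, map_prod, aeval_li]
    exact mul_ne_zero (Finset.prod_ne_zero_iff.mpr fun i _ =>
      Finset.prod_ne_zero_iff.mpr fun j _ => (hrel i j).2)
      (mul_ne_zero (Finset.prod_ne_zero_iff.mpr fun i _ => hlb i)
        (Finset.prod_ne_zero_iff.mpr fun κ _ => hlam0 κ))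
  -- the multiplicities
  have hmult : ∀ (L : Type) [Field L] [Algebra ℂ L] (a' : Fin (N + 1) → L)
      (b' : Fin (n + 1) → L), X.Mem a' b' → (∀ i, lf (ℓ i) b' ≠ 0) → ∀ P : Place ℂ L,
      ¬ CentreIn D a' b' P → ∀ (a0 : ℤ) (w : Fin q → ℕ),
      (∀ φ : Form n, lf φ b' = 0 ∨ a0 ≤ P.ord (lf φ b')) → (∃ i, P.ord (lf (ℓ i) b') = a0) →
      (∀ i, P.ord (lf (ℓ i) b') = a0 + w i) → w ≠ 0 → ∃ i, m ≤ w i := by
    intro L _ _ a' b' hmem h2 P hPB a0 w hge hat hord hw0
    refine hram L a' b' hmem (fun i => h2 i) P hPB a0 w ⟨fun j hj => ?_, ?_⟩ hord hw0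
    · have h4 := hge (LinearMap.proj j)
      rw [Pool.Agent.W521.RC.GNB.lf_proj] at h4
      exact h4.resolve_left hj
    · by_contra hcon
      push Not at hcon
      obtain ⟨i, hi⟩ := hat
      have h5 := Pool.Agent.W521.RC.GNB.ord_sum P Finset.univ
        (fun j => algebraMap ℂ L (ℓ i (Pi.single j 1)) * b' j) (a0 + 1)
        (fun j _ => Pool.Agent.W521.RC.GNB.ord_cmul P _ _ (a0 + 1) (fun hj => by
          have h4 := hge (LinearMap.proj j)
          rw [Pool.Agent.W521.RC.GNB.lf_proj] at h4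
          have h6 := h4.resolve_left hj
          have h7 := hcon j hj
          omega))
      have h6 : ∑ j, algebraMap ℂ L (ℓ i (Pi.single j 1)) * b' j = lf (ℓ i) b' := rfl
      rw [h6] at h5
      have h7 := h5.resolve_left (h2 i)
      omega
  have hfix : ∀ {L : Type} [Field L] [Algebra ℂ L] (a' : Fin (N + 1) → L)
      (b' : Fin (n + 1) → L), X.Mem a' b' → aeval b' Q ≠ 0 → ∀ (i : Fin q), lf (ℓ i) b' ≠ 0 :=
    fun a' b' _ h i => (hsplit b' h).2.1 i
  refine ⟨?_, rename Sum.inr Q, 0, E, biHom_rename hQh, ?_,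
    R0 * ((∑ i, ∑ j, Dg i j) + 1), by positivity, ?_⟩
  · obtain ⟨h1, h2, h3⟩ := hsplit b hbQ
    exact sub_general' hd hn hr hm hK.mem.2.1 h2
      (fun κ hκ1 hκ2 => ⟨lam κ, hlam κ hκ1 hκ2, h3 κ⟩) htr halg _
      fun P _ hPB a0 w hge hat hord hw0 => hmult K a b hK.mem h2 P hPB a0 w hge hat hord hw0
  · -- a point of `X - D`
    have h1 : ∃ F ∈ D.eqs, aeval (Sum.elim a b) F ≠ 0 := by
      by_contra hcon
      push Not at hcon
      exact hD ⟨hK.mem.1, hK.mem.2.1, hcon⟩
    obtain ⟨F, hF, hFab⟩ := h1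
    obtain ⟨e, e', he⟩ := D.hom F hF
    have h2 : BiHom (F * rename Sum.inr Q : BiPoly N n) (e + 0) (e' + E) := by
      have := IsWeightedHomogeneous.mul he (biHom_rename (N := N) hQh)
      exact this
    by_contra hcon
    push Not at hcon
    have h3 := (hK.van _ _ _ h2).2 (fun u v huv => by
      rw [map_mul]
      by_cases hFv : eval (Sum.elim u v) F = 0
      · rw [hFv, zero_mul]
      · rw [hcon u v ⟨huv, fun hd => hFv (hd.2.2 F hF)⟩, mul_zero])
    rw [map_mul, aeval_inr] at h3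
    exact mul_ne_zero hFab hbQ h3
  · intro L _ _ _ S a' b' hmem hPS hnc hne
    rw [aeval_inr] at hne
    obtain ⟨h1, h2, h3⟩ := hsplit b' hne
    obtain ⟨ja, hja⟩ := Function.ne_iff.mp hmem.1
    obtain ⟨jb, hjb⟩ := Function.ne_iff.mp hmem.2.1
    -- `b'` is not constant
    have hncb : ∃ i j, b' j ≠ 0 ∧ b' i / b' j ∉ Set.range (algebraMap ℂ L) := by
      rcases hnc with ⟨i, j, hj, hij⟩ | h
      · by_contra hcon
        push Not at hcon
        have hv : ∀ l, ∃ v : ℂ, algebraMap ℂ L v = b' l / b' jb := fun l => hcon l jb hjb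
        choose v hv using hv
        have hb' : b' = fun l => b' jb * algebraMap ℂ L (v l) := by
          funext l
          rw [hv]
          have : b' jb ≠ 0 := hjb
          field_simp
        have hval : ∀ s ≤ mm i j, aeval b' (c i j s) =
            b' jb ^ Dg i j * algebraMap ℂ L (eval v (c i j s)) := by
          intro s hs
          have e : aeval b' (c i j s) =
              aeval (fun l => b' jb * algebraMap ℂ L (v l)) (c i j s) :=
            congrArg (fun z => aeval z (c i j s)) hb'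
          rw [e, aeval_scale _ ((hrel i j).1.hom s hs)]
          congr 1
          have := aeval_algebraMap_apply (A := ℂ) L v (c i j s)
          rw [← coe_aeval_eq_eval]
          exact this
        apply hij
        apply mem_range_of_alg
        have hroot := (hrel i j).1.root hmem hj
        refine ⟨∑ s ∈ Finset.range (mm i j + 1),
          Polynomial.C (eval v (c i j s)) * Polynomial.X ^ s, fun h0 => ?_, ?_⟩
        · have h4 := congrArg (fun p => Polynomial.coeff p (mm i j)) h0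
          simp only [Polynomial.finsetSum_coeff, Polynomial.coeff_C_mul, Polynomial.coeff_X_pow,
            Polynomial.coeff_zero] at h4
          rw [Finset.sum_eq_single (mm i j)] at h4
          · rw [if_pos rfl, mul_one] at h4
            apply h1 i j
            rw [hval _ le_rfl, h4, map_zero, mul_zero]
          · intro s _ hs
            rw [if_neg (fun h => hs h.symm), mul_zero]
          · intro h
            exact absurd (by simp) h
        · have h5 : b' jb ^ Dg i j * (∑ s ∈ Finset.range (mm i j + 1),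
              algebraMap ℂ L (eval v (c i j s)) * (a' i / a' j) ^ s) = 0 := by
            rw [← hroot, Finset.mul_sum]
            refine Finset.sum_congr rfl fun s hs => ?_
            rw [hval s (by have := Finset.mem_range.1 hs; omega)]
            ring
          have h6 := (mul_eq_zero.mp h5).resolve_left (pow_ne_zero _ hjb)
          rw [map_sum, ← h6]
          refine Finset.sum_congr rfl fun s _ => ?_
          rw [map_mul, map_pow, Polynomial.aeval_C, Polynomial.aeval_X]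
      · exact h
    obtain ⟨i1, j1, hj1, hij1⟩ := hncb
    have htrans : Transcendental ℂ (b' i1 / b' j1) := fun h => hij1 (mem_range_of_alg h)
    have halgL : Algebra.IsAlgebraic
        (IntermediateField.adjoin ℂ {f : L | ∃ i j, b' j ≠ 0 ∧ f = b' i / b' j}) L := by
      have h4 := (IsFF.basis (k := ℂ) htrans).isAlgebraic_field
      refine HY.alg_mono ?_ h4
      rw [IntermediateField.adjoin_le_iff]
      rintro _ ⟨u, rfl⟩
      exact IntermediateField.subset_adjoin ℂ _ ⟨i1, j1, hj1, rfl⟩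
    have heff := hmain hr hm (d := 1) le_rfl hmem.2.1 h2
      (fun κ hκ1 hκ2 => ⟨lam κ, hlam κ hκ1 hκ2, h3 κ⟩)
      (by rw [IsFF.trdeg (k := ℂ) (K := L)]; norm_num) halgL (CentreIn D a' b')
      fun P _ hPB a0 w hge hat hord hw0 => hmult L a' b' hmem h2 P hPB a0 w hge hat hord hw0
    obtain ⟨s, hs, hsec⟩ := exists_sec (fun i j => (hrel i j).1) hmem h1
    exact ⟨deg_bound ⟨jb, hjb⟩ heff S hPS,
      pht_prod ⟨ja, hja⟩ ⟨jb, hjb⟩ (heff.both hmem.2.1 hs hsec) S hPS⟩

end Pool.Agent.TH152.DS
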