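import Pool.Agent.TH152.DS.UniD
import Pool.Agent.TH152.HY.QMain

/-!
Positivity with respect to the first group of coordinates.
-/

set_option autoImplicit false

open FF MvPolynomial Pool.Agent.W603.LV Pool.Agent.W602.GT Pool.Agent.W602.Cov
open Pool.Agent.W602.Cov.R Pool.Agent.TH152.HY

namespace Pool.Agent.TH152.DS

variable {N n q : ℕ} {L : Type} [Field L] [Algebra ℂ L]

/-- roots of polynomials -/
theorem root_bound (P : Place ℂ L) {m : ℕ} {C : ℕ → L} {r : L} {δ : ℤ}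
    (hC : ∀ s ≤ m, Ge P δ (C s)) (hm : C m ≠ 0)
    (h : ∑ s ∈ Finset.range (m + 1), C s * r ^ s = 0) : Ge P δ (C m * r) := by
  by_contra hcon
  unfold Ge at hcon
  push Not at hcon
  obtain ⟨hz0, hz⟩ := hcon
  obtain ⟨z, hzd⟩ : ∃ z, z = C m * r := ⟨_, rfl⟩
  rw [← hzd] at hz0 hz
  have hm1 : 1 ≤ m := by
    by_contra h0
    obtain rfl : m = 0 := by omega
    simp at h
    exact hm h
  obtain ⟨k, rfl⟩ : ∃ k, m = k + 1 := ⟨m - 1, by omega⟩
  have h1 : z ^ (k + 1) = -∑ s ∈ Finset.range (k + 1), C s * C (k + 1) ^ (k - s) * z ^ s := by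
    rw [Finset.sum_range_succ] at h
    have h2 : C (k + 1) ^ k * (∑ s ∈ Finset.range (k + 1), C s * r ^ s) =
        ∑ s ∈ Finset.range (k + 1), C s * C (k + 1) ^ (k - s) * z ^ s := by
      rw [Finset.mul_sum]
      refine Finset.sum_congr rfl fun s hs => ?_
      have hs' : s ≤ k := by have := Finset.mem_range.1 hs; omega
      have h3 : C (k + 1) ^ k = C (k + 1) ^ (k - s) * C (k + 1) ^ s := by
        rw [← pow_add]
        congr 1
        omega
      rw [h3, hzd, mul_pow]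
      ring
    rw [← h2, hzd, mul_pow]
    linear_combination C (k + 1) ^ k * h
  have hge : Ge P ((k + 1 : ℕ) * P.ord z + 1) (z ^ (k + 1)) := by
    rw [h1]
    refine Ge.neg (Ge.sum _ _ fun s hs => ?_)
    have hs' : s ≤ k := by have := Finset.mem_range.1 hs; omega
    have h2 := ((hC s (by omega)).mul ((hC (k + 1) le_rfl).pow (k - s))).mul
      ((ge_ord P z).pow s)
    refine h2.mono ?_
    have h3 : ((k - s : ℕ) : ℤ) = (k : ℤ) - s := by omega
    rw [h3]
    push_cast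
    have h4 : P.ord z + 1 ≤ δ := by omega
    have h5 : (0 : ℤ) ≤ (k : ℤ) - s := by omega
    nlinarith
  rcases hge with h0 | h0
  · exact pow_ne_zero _ hz0 h0
  · rw [P.ord_pow] at h0
    omega

/-- forms -/
theorem ge_form (P : Place ℂ L) {b : Fin (n + 1) → L} {c0 : ℤ} (hb : ∀ j, Ge P c0 (b j))
    {F : MvPolynomial (Fin (n + 1)) ℂ} {D : ℕ} (hF : F.IsHomogeneous D) :
    Ge P (D * c0) (aeval b F) := by
  rw [aeval_def, eval₂_eq']
  refine Ge.sum _ _ fun α hα => ?_
  have h4 : ∑ j, α j = D := by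
    have := hF (mem_support_iff.mp hα)
    rw [Finsupp.weight_apply, Finsupp.sum_fintype] at this
    · simpa using this
    · simp
  have h1 : Ge P (∑ j, (α j : ℤ) * c0) (∏ j, b j ^ α j) :=
    Ge.prod Finset.univ (fun j => b j ^ α j) (fun j => (α j : ℤ) * c0) fun j _ => (hb j).pow _
  have h2 := (Ge.const (P := P) (coeff α F)).mul h1
  refine h2.mono (le_of_eq ?_)
  rw [← Finset.sum_mul, ← h4]
  push_cast
  ring

/-- the section of `E H_b - H_a` -/
theorem exists_sec {X : BiSet N n} {D m : Fin (N + 1) → Fin (N + 1) → ℕ}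
    {c : Fin (N + 1) → Fin (N + 1) → ℕ → MvPolynomial (Fin (n + 1)) ℂ}
    (h : ∀ i j, Rel X i j (D i j) (m i j) (c i j))
    {a : Fin (N + 1) → L} {b : Fin (n + 1) → L} (hab : X.Mem a b)
    (hb : ∀ i j, aeval b (c i j (m i j)) ≠ 0) :
    ∃ s : L, s ≠ 0 ∧ ∀ (P : Place ℂ L) (c0 : ℤ), (∀ j, Ge P c0 (b j)) → ∀ i,
      Ge P ((∑ i, ∑ j, D i j : ℕ) * c0) (s * a i) := by
  classical
  obtain ⟨j, hj⟩ := Function.ne_iff.mp hab.1
  obtain ⟨k, hk⟩ := Function.ne_iff.mp hab.2.1
  have hj' : a j ≠ 0 := hj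
  have hk' : b k ≠ 0 := hk
  have hle : ∑ i, D i j ≤ ∑ i, ∑ j, D i j := Finset.sum_le_sum fun i _ =>
    Finset.single_le_sum (f := fun j => D i j) (fun _ _ => Nat.zero_le _) (Finset.mem_univ j)
  obtain ⟨e, he⟩ := Nat.exists_eq_add_of_le hle
  refine ⟨(∏ i, aeval b (c i j (m i j))) / a j * b k ^ e, mul_ne_zero (div_ne_zero
    (Finset.prod_ne_zero_iff.mpr fun i _ => hb i j) hj') (pow_ne_zero _ hk'), fun P c0 hc0 i => ?_⟩
  have h1 := root_bound P (C := fun s => aeval b (c i j s)) (δ := D i j * c0)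
    (fun s hs => ge_form P hc0 ((h i j).hom s hs)) (hb i j) ((h i j).root hab hj')
  have h2 : Ge P (∑ i' ∈ Finset.univ.erase i, (D i' j : ℤ) * c0)
      (∏ i' ∈ Finset.univ.erase i, aeval b (c i' j (m i' j))) :=
    Ge.prod _ _ _ fun i' _ => ge_form P hc0 ((h i' j).hom _ le_rfl)
  have h3 : (∏ i, aeval b (c i j (m i j))) / a j * b k ^ e * a i =
      (∏ i' ∈ Finset.univ.erase i, aeval b (c i' j (m i' j))) *
        (aeval b (c i j (m i j)) * (a i / a j)) * b k ^ e := by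
    rw [← Finset.mul_prod_erase _ _ (Finset.mem_univ i)]
    field_simp
  rw [h3]
  refine ((h2.mul h1).mul ((hc0 k).pow e)).mono (le_of_eq ?_)
  rw [he, ← Finset.sum_mul]
  have h4 : ∑ i' ∈ Finset.univ.erase i, (D i' j : ℤ) + (D i j : ℤ) = ∑ i, (D i j : ℤ) := by
    rw [add_comm]
    exact Finset.add_sum_erase Finset.univ (fun i => (D i j : ℤ)) (Finset.mem_univ i)
  push_cast
  rw [← h4]
  ring

/-- positivity with respect to both groups of coordinates -/
theorem Effective.both {R w E : ℕ} {Bd : Place ℂ L → Prop} {a : Fin (N + 1) → L}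
    {b : Fin (n + 1) → L} (hb0 : b ≠ 0) (h : Effective L R w Bd b) {s : L} (hs : s ≠ 0)
    (hsec : ∀ (P : Place ℂ L) (c0 : ℤ), (∀ j, Ge P c0 (b j)) → ∀ i, Ge P (E * c0) (s * a i)) :
    Effective L (R * (E + 1)) w Bd fun p : Fin (N + 1) × Fin (n + 1) => a p.1 * b p.2 := by
  classical
  obtain ⟨ω, h1, ⟨D, hD⟩, h3, h4⟩ := h
  obtain ⟨k, hk⟩ := Function.ne_iff.mp hb0
  have key : ∀ (P : Place ℂ L) (F : Fin w → Derivation ℂ L L),
      (∀ j, Ge P 0 (ω F * b j)) → ∀ i j, P.Reg (ω F ^ (E + 1) * s * (a i * b j)) := by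
    intro P F hF i j
    by_cases hω : ω F = 0
    · rw [hω, zero_pow (Nat.succ_ne_zero _), zero_mul, zero_mul]
      exact Ge.zero
    · obtain ⟨j0, hj0, hmin⟩ := Finset.exists_min_image
        (Finset.univ.filter fun j => b j ≠ 0) (fun j => P.ord (b j))
        ⟨k, Finset.mem_filter.mpr ⟨Finset.mem_univ _, hk⟩⟩
      have hj0' := (Finset.mem_filter.mp hj0).2
      have hbj : ∀ j, Ge P (P.ord (b j0)) (b j) := by
        intro j
        by_cases hj : b j = 0
        · exact Or.inl hj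
        · exact Or.inr (hmin j (Finset.mem_filter.mpr ⟨Finset.mem_univ _, hj⟩))
      have h5 : Ge P (-P.ord (b j0)) (ω F) := by
        rcases hF j0 with h6 | h6
        · exact absurd h6 (mul_ne_zero hω hj0')
        · right
          rw [P.ord_mul hω hj0'] at h6
          omega
      have h6 := ((h5.pow (E + 1)).mul (hsec P _ hbj i)).mul (hbj j)
      have h7 : ω F ^ (E + 1) * s * (a i * b j) = ω F ^ (E + 1) * (s * a i) * b j := by ring
      rw [h7]
      refine h6.mono (le_of_eq ?_)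
      push_cast
      ring
  refine ⟨fun F => ω F ^ (E + 1) * s, ?_, ⟨D, mul_ne_zero (pow_ne_zero _ hD) hs⟩, ?_, ?_⟩
  · intro M F
    change ω _ ^ (E + 1) * s = _
    rw [h1 M F, mul_pow, ← pow_mul, mul_assoc]
  · intro P hP p F hF
    exact key P F (fun j => h3 P hP j F hF) p.1 p.2
  · intro P hP hB p F hF
    exact key P F (fun j => h4 P hP hB j F hF) p.1 p.2

end Pool.Agent.TH152.DS
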