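import Pool.Agent.TH152.DS.Code
import Pool.Agent.TH152.HY.Brody
import Pool.Agent.H159R3.GGL.Main

/-!
Systems of diagonal forms and their linear codes: entire curves.
-/

set_option autoImplicit false

open Pool.Agent.W602.GT Pool.Agent.W602.Cov Pool.Agent.W602.Cov.G
open Pool.Agent.TH152.HY

namespace Pool.Agent.TH152.DS

variable {N r : ℕ} {c : Fin r → Fin (N + 1) → ℂ}

theorem split_of_red {n' q : ℕ} {A : (Fin (n' + 1) → ℂ) →ₗ[ℂ] (Fin (N + 1) → ℂ)}
    (hAinj : ∀ v, A v = 0 → v = 0) (hcode : ∀ v, A v ∈ Code c) {ε : Fin q → Fin (N + 1)}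
    (hz : ∀ j, (∀ i, ε i ≠ j) → ∀ v, A v j = 0)
    (hred : Reducible (fun i => LinearMap.proj (ε i) ∘ₗ A)) :
    ∃ κ, Splits c κ ∧ ∀ v i, ∑ j ∈ κ, c i j * A v j = 0 := by
  classical
  obtain ⟨V1, V2, hV1, hV2, hcompl, hV⟩ := hred
  obtain ⟨κ, hκ⟩ : ∃ κ : Finset (Fin (N + 1)),
      κ = Finset.univ.filter fun j => ∀ v ∈ V2, A v j = 0 := ⟨_, rfl⟩
  have hin : ∀ j ∈ κ, ∀ v ∈ V2, A v j = 0 := by
    intro j hj
    rw [hκ] at hj
    exact (Finset.mem_filter.1 hj).2
  have hout : ∀ j ∉ κ, ∀ v ∈ V1, A v j = 0 := by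
    intro j hj v hv
    by_cases h0 : ∀ i, ε i ≠ j
    · exact hz j h0 v
    · push Not at h0
      obtain ⟨i, hi⟩ := h0
      rcases hV i with h | h
      · rw [← hi]
        exact h v hv
      · exfalso
        apply hj
        rw [hκ]
        refine Finset.mem_filter.2 ⟨Finset.mem_univ _, fun u hu => ?_⟩
        rw [← hi]
        exact h u hu
  refine ⟨κ, ⟨?_, ?_⟩, fun u i => ?_⟩
  · obtain ⟨v, hv, hv0⟩ := (Submodule.ne_bot_iff _).1 hV1
    exact ⟨A v, hcode v, fun h => hv0 (hAinj v h), fun j hj => hout j hj v hv⟩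
  · obtain ⟨v, hv, hv0⟩ := (Submodule.ne_bot_iff _).1 hV2
    exact ⟨A v, hcode v, fun h => hv0 (hAinj v h), fun j hj => hin j hj v hv⟩
  · have h1 : u ∈ V1 ⊔ V2 := by rw [hcompl.sup_eq_top]; trivial
    obtain ⟨v1, hv1, v2, hv2, h12⟩ := Submodule.mem_sup.mp h1
    have h2 := hcode v1 i
    rw [← h2, ← h12, map_add, ← Finset.sum_subset (Finset.subset_univ κ)]
    · refine Finset.sum_congr rfl fun j hj => ?_
      rw [Pi.add_apply, hin j hj v2 hv2, add_zero]
    · intro j _ hj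
      rw [hout j hj v1 hv1, mul_zero]

theorem const_of_pow {g : ℂ → ℂ} (hg : Differentiable ℂ g) {m : ℕ} (hm : 0 < m) {a : ℂ}
    (h : ∀ z, g z ^ m = a) (z w : ℂ) : g z = g w := by
  by_cases ha : a = 0
  · have h1 : ∀ z, g z = 0 := fun z => by
      have := h z
      rw [ha] at this
      exact pow_eq_zero_iff hm.ne' |>.1 this
    rw [h1, h1]
  · refine is_const_of_deriv_eq_zero hg (fun z => ?_) z w
    have h1 : HasDerivAt (fun z => g z ^ m) (m * g z ^ (m - 1) * deriv g z) z := by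
      have := (hg z).hasDerivAt.pow m
      exact this
    have h2 : HasDerivAt (fun z => g z ^ m) 0 z := by
      have e : (fun z => g z ^ m) = fun _ => a := funext h
      rw [e]
      exact hasDerivAt_const z a
    have h3 := h1.unique h2
    have h4 : g z ≠ 0 := by
      intro h0
      apply ha
      rw [← h z, h0, zero_pow hm.ne']
    rcases mul_eq_zero.1 h3 with h5 | h5
    · rcases mul_eq_zero.1 h5 with h6 | h6
      · exact absurd (Nat.cast_eq_zero.1 h6) hm.ne'
      · exact absurd h6 (pow_ne_zero _ h4)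
    · exact h5

/-- **Entire curves in diagonal systems.** -/
theorem curve_split {n m : ℕ} (hc : Module.finrank ℂ (Code c) ≤ n + 1)
    (hm : n * (n + 1) * (n + 2) < 2 * m) {f : ℂ → Fin (N + 1) → ℂ} (hd : Differentiable ℂ f)
    (hne : ∀ z, f z ≠ 0) (hF : ∀ z i, ∑ j, c i j * f z j ^ m = 0)
    (hnc : ∃ z w, ∀ a : ℂ, f z ≠ a • f w) :
    ∃ κ, Splits c κ ∧ ∀ z i, ∑ j ∈ κ, c i j * f z j ^ m = 0 := by
  classical
  have hm0 : 0 < m := by
    rcases Nat.eq_zero_or_pos m with h | h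
    · rw [h] at hm
      omega
    · exact h
  have hdj : ∀ j, Differentiable ℂ fun z => f z j := differentiable_pi.1 hd
  obtain ⟨b, hb⟩ : ∃ b : ℂ → Fin (N + 1) → ℂ, b = fun z j => f z j ^ m := ⟨_, rfl⟩
  have hbj : ∀ z j, b z j = f z j ^ m := fun z j => by rw [hb]
  have hb0 : ∀ z, b z ≠ 0 := by
    intro z h0
    obtain ⟨j, hj⟩ := Function.ne_iff.1 (hne z)
    have h1 := congrFun h0 j
    rw [hbj] at h1
    exact hj (pow_eq_zero_iff hm0.ne' |>.1 h1)
  obtain ⟨W, hW⟩ : ∃ W : Submodule ℂ (Fin (N + 1) → ℂ), W = Submodule.span ℂ (Set.range b) :=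
    ⟨_, rfl⟩
  have hbW : ∀ z, b z ∈ W := fun z => by rw [hW]; exact Submodule.subset_span ⟨z, rfl⟩
  have hWc : W ≤ Code c := by
    rw [hW, Submodule.span_le]
    rintro _ ⟨z, rfl⟩ i
    have h1 := hF z i
    simp only [← hbj] at h1
    exact h1
  obtain ⟨n', hn'⟩ : ∃ n', Module.finrank ℂ W = n' + 1 := by
    have h1 : 0 < Module.finrank ℂ W := by
      rw [Module.finrank_pos_iff]
      exact ⟨⟨⟨b 0, hbW 0⟩, 0, fun h => hb0 0 (congrArg Subtype.val h)⟩⟩
    exact ⟨Module.finrank ℂ W - 1, by omega⟩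
  have hn'n : n' ≤ n := by
    have := Submodule.finrank_mono hWc
    omega
  let e : W ≃ₗ[ℂ] (Fin (n' + 1) → ℂ) := (Module.finBasisOfFinrankEq ℂ W hn').equivFun
  obtain ⟨A, hA⟩ : ∃ A : (Fin (n' + 1) → ℂ) →ₗ[ℂ] (Fin (N + 1) → ℂ),
      A = W.subtype ∘ₗ e.symm.toLinearMap := ⟨_, rfl⟩
  have hAe : ∀ v, A v = (e.symm v : Fin (N + 1) → ℂ) := fun v => by rw [hA]; rfl
  have hAinj : ∀ v, A v = 0 → v = 0 := by
    intro v hv
    rw [hAe] at hv
    have h1 : e.symm v = 0 := Subtype.ext hv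
    have h2 := congrArg e h1
    rwa [LinearEquiv.apply_symm_apply, map_zero] at h2
  have hcode : ∀ v, A v ∈ Code c := fun v => hWc (by rw [hAe]; exact (e.symm v).2)
  obtain ⟨S, hS⟩ := LinearMap.exists_leftInverse_of_injective A (by
    rw [Submodule.eq_bot_iff]
    exact fun v hv => hAinj v hv)
  have hSA : ∀ v, S (A v) = v := fun v => by
    rw [← LinearMap.comp_apply, hS, LinearMap.id_apply]
  obtain ⟨x, hx⟩ : ∃ x : ℂ → Fin (n' + 1) → ℂ, x = fun z => S (b z) := ⟨_, rfl⟩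
  have hAx : ∀ z, A (x z) = b z := by
    intro z
    have h1 : b z = A (e ⟨b z, hbW z⟩) := by
      rw [hAe, LinearEquiv.symm_apply_apply]
    have h2 : x z = S (b z) := by rw [hx]
    rw [h2]
    conv_lhs => rw [h1]
    rw [hSA]
    exact h1.symm
  have hdb : ∀ j, Differentiable ℂ fun z => b z j := by
    intro j
    simp only [hbj]
    exact (hdj j).pow m
  have hdx : ∀ j, Differentiable ℂ fun z => x z j := by
    intro j
    have h1 : (fun z => x z j) = fun z => ∑ l, b z l * S (Pi.single l 1) j := by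
      funext z
      have h2 : x z = S (b z) := by rw [hx]
      rw [h2, LinearMap.pi_apply_eq_sum_univ S (b z), Finset.sum_apply]
      refine Finset.sum_congr rfl fun l _ => ?_
      rw [Pi.smul_apply, smul_eq_mul]
      have h3 : (fun k => if l = k then (1 : ℂ) else 0) = Pi.single l 1 := by
        funext k
        simp [Pi.single_apply, eq_comm]
      rw [h3]
    rw [h1]
    exact Differentiable.fun_sum fun l _ => (hdb l).mul_const _
  have hcur : CurveInPn x := by
    refine ⟨hdx, fun z h0 => hb0 z (by rw [← hAx, h0, map_zero]), ?_⟩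
    by_contra hcon
    push Not at hcon
    have hprop : ∀ z z', ∃ t : ℂ, b z' = t • b z := by
      intro z z'
      obtain ⟨t, ht⟩ := hcon z z'
      exact ⟨t, by rw [← hAx, ht, map_smul, hAx]⟩
    obtain ⟨z, w, hzw⟩ := hnc
    obtain ⟨j0, hj0⟩ := Function.ne_iff.1 (hne w)
    have hj0z : ∀ z', f z' j0 ≠ 0 := by
      intro z' h0
      obtain ⟨t, ht⟩ := hprop w z'
      have h1 := congrFun ht j0
      rw [Pi.smul_apply, smul_eq_mul, hbj, hbj, h0, zero_pow hm0.ne'] at h1
      rcases mul_eq_zero.1 h1.symm with h2 | h2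
      · rw [h2, zero_smul] at ht
        exact hb0 z' ht
      · exact pow_ne_zero m hj0 h2
    have hconst : ∀ j, f z j / f z j0 = f w j / f w j0 := by
      intro j
      refine const_of_pow (g := fun u => f u j / f u j0) ((hdj j).div (hdj j0) hj0z) hm0
        (a := (f w j / f w j0) ^ m) (fun u => ?_) z w
      obtain ⟨t, ht⟩ := hprop w u
      have h1 := congrFun ht j
      have h2 := congrFun ht j0
      rw [Pi.smul_apply, smul_eq_mul, hbj, hbj] at h1 h2
      have h3 : t ≠ 0 := by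
        rintro rfl
        rw [zero_mul] at h2
        exact pow_ne_zero m (hj0z u) h2
      have h4 := pow_ne_zero m (hj0z w)
      change (f u j / f u j0) ^ m = _
      rw [div_pow, div_pow, h1, h2]
      field_simp
    apply hzw (f z j0 / f w j0)
    funext j
    have h1 := hconst j
    have h2 := hj0z z
    have h3 := hj0z w
    rw [Pi.smul_apply, smul_eq_mul]
    field_simp at h1 ⊢
    linear_combination h1
  -- the nonzero coordinates
  obtain ⟨J, hJ⟩ : ∃ J : Finset (Fin (N + 1)), J = Finset.univ.filter fun j => ∃ z, f z j ≠ 0 :=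
    ⟨_, rfl⟩
  have hmemJ : ∀ j, j ∈ J ↔ ∃ z, f z j ≠ 0 := fun j => by rw [hJ]; simp
  obtain ⟨ε⟩ : Nonempty (Fin J.card ≃ J) := ⟨J.equivFin.symm⟩
  obtain ⟨ℓ, hℓdef⟩ : ∃ ℓ : Fin J.card → Form n',
      ℓ = fun i => LinearMap.proj ((fun i => (ε i).1) i) ∘ₗ A := ⟨_, rfl⟩
  have hℓ : ∀ i v, ℓ i v = A v (ε i).1 := fun i v => by rw [hℓdef]; rfl
  have hℓx : ∀ i z, ℓ i (x z) = f z (ε i).1 ^ m := fun i z => by rw [hℓ, hAx, hbj]
  have hzero : ∀ j, (∀ z, f z j = 0) → ∀ v, A v j = 0 := by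
    intro j hj v
    have h1 : W ≤ LinearMap.ker (LinearMap.proj j : (Fin (N + 1) → ℂ) →ₗ[ℂ] ℂ) := by
      rw [hW, Submodule.span_le]
      rintro _ ⟨z, rfl⟩
      change b z j = 0
      rw [hbj, hj, zero_pow hm0.ne']
    have h2 : A v ∈ W := by rw [hAe]; exact (e.symm v).2
    exact h1 h2
  have hnot : ∀ j, (∀ i, (ε i).1 ≠ j) → ∀ v, A v j = 0 := by
    intro j hj
    refine hzero j fun z => ?_
    by_contra h0
    refine hj (ε.symm ⟨j, (hmemJ j).2 ⟨z, h0⟩⟩) ?_
    rw [Equiv.apply_symm_apply]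
  by_cases hred : Reducible ℓ
  · rw [hℓdef] at hred
    obtain ⟨κ, hκ, h⟩ := split_of_red (ε := fun i => (ε i).1) hAinj hcode hnot hred
    refine ⟨κ, hκ, fun z i => ?_⟩
    have h1 := h (x z) i
    rw [hAx] at h1
    simpa only [hbj] using h1
  · exfalso
    have hm' : n' * (n' + 1) * (n' + 2) < 2 * m := by
      refine lt_of_le_of_lt ?_ hm
      exact Nat.mul_le_mul (Nat.mul_le_mul hn'n (by omega)) (by omega)
    have hℓne : ∀ i, ∃ z, ℓ i (x z) ≠ 0 := by
      intro i
      obtain ⟨z, hz⟩ := (hmemJ _).1 (ε i).2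
      exact ⟨z, by rw [hℓx]; exact pow_ne_zero m hz⟩
    obtain ⟨κ, hκ1, hκ2, hκ⟩ := curve_entire hred hm' hcur hℓne (by
      intro z a ha ha0
      obtain ⟨i, hi⟩ := Function.ne_iff.1 ha0
      refine ⟨i, ?_⟩
      have h1 := ha i
      have h2 : (fun w => ℓ i (x w)) = (fun w => f w (ε i).1) ^ m := by
        funext w
        rw [hℓx]
        rfl
      have han : AnalyticAt ℂ (fun w => f w (ε i).1) z := (hdj _).analyticAt z
      rw [h2, analyticOrderAt_pow han] at h1
      have h3 : analyticOrderAt (fun w => f w (ε i).1) z ≠ ⊤ := by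
        intro h
        rw [h] at h1
        have : (m : ℕ∞) ≠ 0 := by exact_mod_cast hm0.ne'
        rw [nsmul_eq_mul, ENat.mul_top this] at h1
        exact ENat.top_ne_natCast _ h1
      obtain ⟨k, hk⟩ := ENat.ne_top_iff_exists.1 h3
      rw [← hk, nsmul_eq_mul] at h1
      have h4 : m * k = a i := by exact_mod_cast h1
      rcases Nat.eq_zero_or_pos k with h5 | h5
      · exfalso
        apply hi
        rw [← h4, h5, mul_zero]
        rfl
      · rw [← h4]
        exact Nat.le_mul_of_pos_right m h5)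
    have htop : Flat ℓ κ ⊔ Flat ℓ κᶜ = ⊤ := by
      rw [eq_top_iff]
      intro v _
      have h1 : W ≤ (Flat ℓ κ ⊔ Flat ℓ κᶜ).map A := by
        rw [hW, Submodule.span_le]
        rintro _ ⟨z, rfl⟩
        exact ⟨x z, hκ z, hAx z⟩
      have h2 : A v ∈ W := by rw [hAe]; exact (e.symm v).2
      obtain ⟨u, hu, huv⟩ := h1 h2
      have h3 : u = v := by
        rw [← hSA u, huv, hSA]
      rwa [h3] at hu
    have hdisj : Flat ℓ κ ⊓ Flat ℓ κᶜ = ⊥ := by
      rw [Submodule.eq_bot_iff]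
      rintro v ⟨h1, h2⟩
      refine hAinj v ?_
      funext j
      by_cases hj : ∀ i, (ε i).1 ≠ j
      · exact hnot j hj v
      · push Not at hj
        obtain ⟨i, hi⟩ := hj
        rw [← hi, ← hℓ]
        by_cases hik : i ∈ κ
        · exact mem_flat.1 h1 i hik
        · exact mem_flat.1 h2 i (Finset.mem_compl.2 hik)
    have hno : ∀ i, ℓ i ≠ 0 := by
      intro i h0
      obtain ⟨z, hz⟩ := hℓne i
      exact hz (by rw [h0]; rfl)
    apply hred
    refine ⟨Flat ℓ κ, Flat ℓ κᶜ, ?_, ?_, ⟨disjoint_iff.2 hdisj, codisjoint_iff.2 htop⟩, fun i => ?_⟩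
    · intro h0
      rw [h0, bot_sup_eq] at htop
      obtain ⟨i, hi⟩ : ∃ i, i ∉ κ := by
        by_contra hcon
        push Not at hcon
        exact hκ2 (Finset.eq_univ_iff_forall.2 hcon)
      refine hno i (LinearMap.ext fun v => ?_)
      have h1 : v ∈ Flat ℓ κᶜ := by rw [htop]; trivial
      exact mem_flat.1 h1 i (Finset.mem_compl.2 hi)
    · intro h0
      rw [h0, sup_bot_eq] at htop
      obtain ⟨i, hi⟩ := hκ1
      refine hno i (LinearMap.ext fun v => ?_)
      have h1 : v ∈ Flat ℓ κ := by rw [htop]; trivial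
      exact mem_flat.1 h1 i hi
    · by_cases hik : i ∈ κ
      · exact Or.inl fun v hv => mem_flat.1 hv i hik
      · exact Or.inr fun v hv => mem_flat.1 hv i (Finset.mem_compl.2 hik)

end Pool.Agent.TH152.DS
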