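import Pool.Agent.TH152.DS.CodeCurve
import Pool.Agent.TH152.DS.Affine
import Pool.Agent.W602.GT.Cls
import Pool.Agent.W603.CX.Groupless

/-!
Systems of diagonal forms and their linear codes: the special sets.
-/

set_option autoImplicit false

open FF MvPolynomial Pool.Agent.W603.LV Pool.Agent.W602.GT Pool.Agent.W602.Cov
open Pool.Agent.W603.PV Pool.Agent.W603.CX
open Pool.Agent.TH152.HY

namespace Pool.Agent.TH152.DS

variable {N r : ℕ}

/-- The diagonal forms `∑ j, c i j * y j ^ m`. -/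
noncomputable def diag (m : ℕ) (c : Fin r → Fin (N + 1) → ℂ) (i : Fin r) :
    MvPolynomial (Fin (N + 1)) ℂ := ∑ j, C (c i j) * X j ^ m

/-- The union over all `κ` such that the code splits of the subsets of `X` on which the partial sums
over `κ` of all the forms vanish (as a cone). -/
def SplitLocus (m : ℕ) (c : Fin r → Fin (N + 1) → ℂ) : Set (Fin (N + 1) → ℂ) :=
  {x | x ∈ Cone (diag m c) ∧ ∃ κ, Splits c κ ∧ ∀ i, ∑ j ∈ κ, c i j * x j ^ m = 0}

/-- The Zariski closure of the union of the images of all entire curves in `X` (as a cone). -/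
def SpEnt {n : ℕ} {ι : Type} (F : ι → MvPolynomial (Fin (n + 1)) ℂ) : Set (Fin (n + 1) → ℂ) :=
  {x | x ∈ Cone F ∧ ∀ G : MvPolynomial (Fin (n + 1)) ℂ, IsForm G →
    (∀ f, Pool.Agent.H159R3.GGL.EntireCurve F f → ∀ z, val (f z) G = 0) → val x G = 0}

/-- partial sums -/
noncomputable def part (m : ℕ) (c : Fin r → Fin (N + 1) → ℂ) (κ : Finset (Fin (N + 1)))
    (i : Fin r) : MvPolynomial (Fin (N + 1)) ℂ := ∑ j ∈ κ, C (c i j) * X j ^ m

variable {m : ℕ} {c : Fin r → Fin (N + 1) → ℂ}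

theorem val_part {K : Type} [Field K] [Algebra ℂ K] (y : Fin (N + 1) → K)
    (κ : Finset (Fin (N + 1))) (i : Fin r) :
    val y (part m c κ i) = ∑ j ∈ κ, algebraMap ℂ K (c i j) * y j ^ m := by
  unfold val part
  rw [map_sum]
  refine Finset.sum_congr rfl fun j _ => ?_
  rw [map_mul, map_pow, aeval_C, aeval_X]

theorem val_diag {K : Type} [Field K] [Algebra ℂ K] (y : Fin (N + 1) → K) (i : Fin r) :
    val y (diag m c i) = ∑ j, algebraMap ℂ K (c i j) * y j ^ m := val_part y Finset.univ i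

theorem val_diag' (y : Fin (N + 1) → ℂ) (i : Fin r) :
    val y (diag m c i) = ∑ j, c i j * y j ^ m := val_diag y i

theorem hom_part (κ : Finset (Fin (N + 1))) (i : Fin r) : (part m c κ i).IsHomogeneous m := by
  refine IsHomogeneous.sum _ _ _ fun j _ => ?_
  have h1 : (C (c i j) : MvPolynomial (Fin (N + 1)) ℂ).IsHomogeneous 0 := isHomogeneous_C _ _
  have h2 : (X j ^ m : MvPolynomial (Fin (N + 1)) ℂ).IsHomogeneous (1 * m) :=
    (isHomogeneous_X ℂ j).pow m
  have h3 := h1.mul h2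
  rwa [one_mul, zero_add] at h3

theorem form_diag (i : Fin r) : IsForm (diag m c i) := ⟨m, hom_part Finset.univ i⟩

/-- a form which vanishes at all points with vanishing partial sums -/
theorem exists_form' {x : Fin (N + 1) → ℂ} (hx : x ∈ Cone (diag m c))
    (hs : x ∉ SplitLocus m c) : ∃ G : MvPolynomial (Fin (N + 1)) ℂ, IsForm G ∧ val x G ≠ 0 ∧
      ∀ {K : Type} [Field K] [Algebra ℂ K] (y : Fin (N + 1) → K) (κ : Finset (Fin (N + 1))),
        Splits c κ → (∀ i, ∑ j ∈ κ, algebraMap ℂ K (c i j) * y j ^ m = 0) → val y G = 0 := by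
  classical
  have h1 : ∀ κ : Finset (Fin (N + 1)), ∃ G : MvPolynomial (Fin (N + 1)) ℂ, G.IsHomogeneous m ∧
      (Splits c κ → val x G ≠ 0 ∧ ∃ i, G = part m c κ i) := by
    intro κ
    by_cases hκ : Splits c κ
    · have h2 : ∃ i, ∑ j ∈ κ, c i j * x j ^ m ≠ 0 := by
        by_contra hcon
        push Not at hcon
        exact hs ⟨hx, κ, hκ, hcon⟩
      obtain ⟨i, hi⟩ := h2
      refine ⟨part m c κ i, hom_part κ i, fun _ => ⟨?_, i, rfl⟩⟩
      rw [val_part]
      exact hi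
    · exact ⟨0, isHomogeneous_zero _ _ _, fun h => absurd h hκ⟩
  choose g hg1 hg2 using h1
  refine ⟨∏ κ ∈ Finset.univ.filter (fun κ => Splits c κ), g κ,
    ⟨_, IsHomogeneous.prod _ _ _ fun κ _ => hg1 κ⟩, ?_, ?_⟩
  · unfold val
    rw [map_prod]
    exact Finset.prod_ne_zero_iff.2 fun κ hκ => (hg2 κ (Finset.mem_filter.1 hκ).2).1
  · intro K _ _ y κ hκ h
    unfold val
    rw [map_prod]
    obtain ⟨-, i, hi⟩ := hg2 κ hκ
    refine Finset.prod_eq_zero (Finset.mem_filter.2 ⟨Finset.mem_univ κ, hκ⟩) ?_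
    rw [hi]
    have h2 := val_part (m := m) (c := c) y κ i
    unfold val at h2
    rw [h2]
    exact h i

/-- roots of code vectors -/
theorem root_code (hm : 0 < m) {κ : Finset (Fin (N + 1))} {t : Fin (N + 1) → ℂ} (ht : t ∈ Code c)
    (ht0 : t ≠ 0) (hκ : ∀ j ∉ κ, t j = 0) : ∃ u : Fin (N + 1) → ℂ, u ≠ 0 ∧ (∀ j ∉ κ, u j = 0) ∧
      ∀ i, ∑ j, c i j * u j ^ m = 0 := by
  have h1 : ∀ j, ∃ z : ℂ, z ^ m = t j := fun j => IsAlgClosed.exists_pow_nat_eq (t j) hm
  choose u hu using h1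
  refine ⟨u, fun h0 => ht0 ?_, fun j hj => ?_, fun i => ?_⟩
  · funext j
    rw [← hu j, h0]
    simp [hm.ne']
  · have h2 := hu j
    rw [hκ j hj] at h2
    exact pow_eq_zero_iff hm.ne' |>.1 h2
  · have h2 := ht i
    simpa only [hu] using h2

/-- two points of `X` with disjoint supports span a line in `X` -/
theorem line_of (hm : 0 < m) {κ : Finset (Fin (N + 1))} {a b : Fin (N + 1) → ℂ} (ha : a ≠ 0)
    (hb : b ≠ 0) (haκ : ∀ j ∉ κ, a j = 0) (hbκ : ∀ j ∈ κ, b j = 0)
    (haX : ∀ i, ∑ j, c i j * a j ^ m = 0) (hbX : ∀ i, ∑ j, c i j * b j ^ m = 0) :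
    Line (diag m c) a b := by
  obtain ⟨ja, hja⟩ := Function.ne_iff.1 ha
  obtain ⟨jb, hjb⟩ := Function.ne_iff.1 hb
  have h1 : ja ∈ κ := by
    by_contra h
    exact hja (haκ ja h)
  have h2 : jb ∉ κ := fun h => hjb (hbκ jb h)
  refine ⟨?_, fun p q i => ?_⟩
  · rw [LinearIndependent.pair_iff]
    intro p q hpq
    have e1 := congrFun hpq ja
    have e2 := congrFun hpq jb
    simp only [Pi.add_apply, Pi.smul_apply, smul_eq_mul, Pi.zero_apply, hbκ ja h1, haκ jb h2,
      mul_zero, add_zero, zero_add] at e1 e2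
    exact ⟨(mul_eq_zero.1 e1).resolve_right hja, (mul_eq_zero.1 e2).resolve_right hjb⟩
  · rw [val_diag']
    have h3 : ∀ j, c i j * (p • a + q • b) j ^ m =
        p ^ m * (c i j * a j ^ m) + q ^ m * (c i j * b j ^ m) := by
      intro j
      simp only [Pi.add_apply, Pi.smul_apply, smul_eq_mul]
      by_cases hj : j ∈ κ
      · rw [hbκ j hj, zero_pow hm.ne', mul_zero, add_zero, mul_pow]
        ring
      · rw [haκ j hj, zero_pow hm.ne', mul_zero, zero_add, mul_pow]
        ring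
    rw [Finset.sum_congr rfl fun j _ => h3 j, Finset.sum_add_distrib, ← Finset.mul_sum,
      ← Finset.mul_sum, haX i, hbX i, mul_zero, mul_zero, add_zero]

theorem exists_line (hm : 0 < m) {κ : Finset (Fin (N + 1))} (hκ : Splits c κ) :
    ∃ a b, Line (diag m c) a b := by
  classical
  obtain ⟨⟨s, hs, hs0, hsκ⟩, t, ht, ht0, htκ⟩ := hκ
  obtain ⟨a, ha0, haκ, haX⟩ := root_code hm hs hs0 hsκ
  obtain ⟨b, hb0, hbκ, hbX⟩ := root_code (κ := κᶜ) hm ht ht0
    (fun j hj => htκ j (by simpa using hj))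
  exact ⟨a, b, line_of hm ha0 hb0 haκ (fun j hj => hbκ j (by simpa using hj)) haX hbX⟩

/-- the points with vanishing partial sums lie on lines -/
theorem split_line (hm : 0 < m) {x : Fin (N + 1) → ℂ} (hx : x ∈ SplitLocus m c) :
    ∃ a b, Line (diag m c) a b ∧ ∃ p q : ℂ, x = p • a + q • b := by
  classical
  obtain ⟨⟨hx0, hxX⟩, κ, ⟨⟨s, hs, hs0, hsκ⟩, t, ht, ht0, htκ⟩, hxκ⟩ := hx
  have hX : ∀ i, ∑ j, c i j * x j ^ m = 0 := fun i => by rw [← val_diag']; exact hxX i
  obtain ⟨a, ha⟩ : ∃ a : Fin (N + 1) → ℂ, a = fun j => if j ∈ κ then x j else 0 := ⟨_, rfl⟩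
  obtain ⟨b, hb⟩ : ∃ b : Fin (N + 1) → ℂ, b = fun j => if j ∈ κ then 0 else x j := ⟨_, rfl⟩
  have haκ : ∀ j ∉ κ, a j = 0 := fun j hj => by rw [ha]; exact if_neg hj
  have hbκ : ∀ j ∈ κ, b j = 0 := fun j hj => by rw [hb]; exact if_pos hj
  have hxab : x = a + b := by
    funext j
    rw [Pi.add_apply, ha, hb]
    by_cases hj : j ∈ κ
    · simp only [if_pos hj, add_zero]
    · simp only [if_neg hj, zero_add]
  have haX : ∀ i, ∑ j, c i j * a j ^ m = 0 := by
    intro i
    rw [← hxκ i, ← Finset.sum_subset (Finset.subset_univ κ)]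
    · refine Finset.sum_congr rfl fun j hj => ?_
      rw [ha]
      simp only [if_pos hj]
    · intro j _ hj
      rw [haκ j hj, zero_pow hm.ne', mul_zero]
  have hbX : ∀ i, ∑ j, c i j * b j ^ m = 0 := by
    intro i
    have h1 : ∀ j, c i j * x j ^ m = c i j * a j ^ m + c i j * b j ^ m := by
      intro j
      by_cases hj : j ∈ κ
      · rw [hbκ j hj, zero_pow hm.ne', mul_zero, add_zero, hxab, Pi.add_apply, hbκ j hj, add_zero]
      · rw [haκ j hj, zero_pow hm.ne', mul_zero, zero_add, hxab, Pi.add_apply, haκ j hj, zero_add]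
    have h2 := hX i
    rw [Finset.sum_congr rfl fun j _ => h1 j, Finset.sum_add_distrib, haX i, zero_add] at h2
    exact h2
  by_cases ha0 : a = 0
  · have hb0 : b ≠ 0 := by
      rintro h
      apply hx0
      rw [hxab, ha0, h, add_zero]
    obtain ⟨a', ha0', haκ', haX'⟩ := root_code hm hs hs0 hsκ
    refine ⟨a', b, line_of hm ha0' hb0 haκ' hbκ haX' hbX, 0, 1, ?_⟩
    rw [hxab, ha0, zero_add, zero_smul, one_smul, zero_add]
  · by_cases hb0 : b = 0
    · obtain ⟨b', hb0', hbκ', hbX'⟩ := root_code (κ := κᶜ) hm ht ht0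
        (fun j hj => htκ j (by simpa using hj))
      refine ⟨a, b', line_of hm ha0 hb0' haκ (fun j hj => hbκ' j (by simpa using hj)) haX hbX',
        1, 0, ?_⟩
      rw [hxab, hb0, add_zero, zero_smul, one_smul, add_zero]
    · exact ⟨a, b, line_of hm ha0 hb0 haκ hbκ haX hbX, 1, 1, by rw [hxab, one_smul, one_smul]⟩

theorem split_sub_line (hm : 0 < m) : SplitLocus m c ⊆ SpLine (diag m c) := by
  intro x hx
  obtain ⟨a, b, hab, p, q, hpq⟩ := split_line hm hx
  refine ⟨hx.1, fun G _ h => ?_⟩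
  rw [hpq]
  exact h a b hab p q

theorem pos_of {n : ℕ} (hm : n * (n + 1) * (n + 2) < 2 * m) : 0 < m := by
  rcases Nat.eq_zero_or_pos m with h | h
  · rw [h] at hm
    omega
  · exact h

theorem val_eval {n : ℕ} (x : Fin (n + 1) → ℂ) (G : MvPolynomial (Fin (n + 1)) ℂ) :
    val x G = eval x G := by
  unfold val
  rw [aeval_eq_eval]

/-- morphisms from the multiplicative group give entire curves -/
theorem gm_entire {n : ℕ} {ι : Type} {F : ι → MvPolynomial (Fin (n + 1)) ℂ}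
    {P : Fin (n + 1) → Polynomial ℂ} (hP : GmCurve F P) :
    Pool.Agent.H159R3.GGL.EntireCurve F fun z i => (P i).eval (Complex.exp z) := by
  refine ⟨?_, fun z => ⟨hP.ne _ (Complex.exp_ne_zero z), fun i => ?_⟩, ?_⟩
  · rw [differentiable_pi]
    intro i
    exact (Polynomial.differentiable (P i)).comp Complex.differentiable_exp
  · have h1 := hP.mem _ (Complex.exp_ne_zero z) i
    rwa [val_eval] at h1
  · obtain ⟨t, t', ht, ht', hli⟩ := hP.nonconst
    refine ⟨Complex.log t, Complex.log t', fun a h => ?_⟩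
    simp only [Complex.exp_log ht, Complex.exp_log ht'] at h
    rw [LinearIndependent.pair_iff] at hli
    have h1 := hli 1 (-a) (by rw [h, one_smul, neg_smul, add_neg_cancel])
    exact one_ne_zero h1.1

theorem gm_sub_ent {n : ℕ} {ι : Type} (F : ι → MvPolynomial (Fin (n + 1)) ℂ) :
    SpGm F ⊆ SpEnt F := by
  rintro x ⟨hx, h⟩
  refine ⟨hx, fun G hG hE => h G hG fun P hP t ht => ?_⟩
  have h1 := hE _ (gm_entire hP) (Complex.log t)
  rwa [Complex.exp_log ht] at h1

theorem ent_sub {n : ℕ} (hc : Module.finrank ℂ (Code c) ≤ n + 1)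
    (hm : n * (n + 1) * (n + 2) < 2 * m) : SpEnt (diag m c) ⊆ SplitLocus m c := by
  rintro x ⟨hx, h⟩
  by_contra hs
  obtain ⟨G, hG, hxG, hvan⟩ := exists_form' hx hs
  refine hxG (h G hG fun f hf z => ?_)
  obtain ⟨κ, hκ, hsum⟩ := curve_split hc hm hf.1 (fun z => (hf.2.1 z).1) (fun z i => by
    rw [← val_diag', val_eval]
    exact (hf.2.1 z).2 i) hf.2.2
  exact hvan (f z) κ hκ fun i => hsum z i

theorem alg_sub {n : ℕ} (hc : Module.finrank ℂ (Code c) ≤ n + 1)
    (hm : n * (n + 1) * (n + 2) < 2 * m) : SpAlg (diag m c) ⊆ SplitLocus m c := by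
  rintro x ⟨hx, h⟩
  by_contra hs
  obtain ⟨G, hG, hxG, hvan⟩ := exists_form' hx hs
  obtain ⟨R, hR, hmain⟩ := dichotomy n N
  refine hxG (h G hG fun K _ _ w y hw hy hgt => ?_)
  rcases hmain hc hm hw hy.ne (fun i => by rw [← val_diag]; exact hy.mem i)
    (by rw [hy.gen]; infer_instance) hy.dim with ⟨κ, hκ, hsum⟩ | h1
  · exact hvan y κ hκ hsum
  · exact absurd h1.2 hgt

/-- **The special sets of diagonal systems.** -/
theorem special_sets {n : ℕ} (hc : Module.finrank ℂ (Code c) ≤ n + 1)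
    (hm : n * (n + 1) * (n + 2) < 2 * m) :
    SpAlg (diag m c) = SplitLocus m c ∧ SpEnt (diag m c) = SplitLocus m c ∧
      SpGm (diag m c) = SplitLocus m c ∧ SpLine (diag m c) = SplitLocus m c := by
  have hm0 := pos_of hm
  have h1 : SplitLocus m c ⊆ SpLine (diag m c) := split_sub_line hm0
  have h2 : SpLine (diag m c) ⊆ SpGm (diag m c) := line_sub_gm _
  have h3 : SpGm (diag m c) ⊆ SpAlg (diag m c) := gm_sub_alg fun i => form_diag i
  have h4 : SpGm (diag m c) ⊆ SpEnt (diag m c) := gm_sub_ent _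
  have h5 := alg_sub hc hm
  have h6 := ent_sub hc hm
  exact ⟨h5.antisymm ((h1.trans h2).trans h3), h6.antisymm ((h1.trans h2).trans h4),
    (h3.trans h5).antisymm (h1.trans h2), ((h2.trans h3).trans h5).antisymm h1⟩

end Pool.Agent.TH152.DS
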