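import Pool.Agent.TH152.HY.QDefs

/-!
Uniform positivity of the canonical bundles of the subvarieties of a quasi-projective variety.
-/

set_option autoImplicit false

open MvPolynomial Pool.Agent.W602.Cov.R Pool.Agent.W602.GT Pool.Agent.TH152.HY

namespace Pool.Agent.TH152.DS

/-- `R (K_Z + D_Z) - H` is effective: `Z` is a variety over `ℂ` with function field `K`, of
dimension `w`, the places in `Bd` are those without centre on `Z`, `D_Z` is the boundary of `Z`, and
`H` is the pull-back of `O(1)` under the rational map to projective space with the homogeneous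
coordinates `b`. The section `ω ≠ 0` is a rational section of `R` times the canonical bundle; the
products of `ω` with all coordinates `b j` have at most logarithmic poles at all prime divisors, and
are regular at the prime divisors with centre on `Z`. -/
def Effective (K : Type) [Field K] [Algebra ℂ K] (R w : ℕ) (Bd : FF.Place ℂ K → Prop) {ι : Type}
    (b : ι → K) : Prop :=
  ∃ ω : (Fin w → Derivation ℂ K K) → K, IsPluri R ω ∧ (∃ D, ω D ≠ 0) ∧
    (∀ P : FF.Place ℂ K, Divisorial w P → ∀ j, LogAt P fun D => ω D * b j) ∧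
    ∀ P : FF.Place ℂ K, Divisorial w P → ¬ Bd P → ∀ j, RegAt P fun D => ω D * b j

variable {N n : ℕ}

/-- For all closed subvarieties `Z` of `X - D` of positive dimension `d` which are not contained in
`G = 0`, `R (K_Z + D_Z) - H'` is effective, with `H'` the pull-back of the hyperplane class of `P^n`.
The subvariety is given by its function field `L` and the homogeneous coordinates `a`, `b` of its
generic point. -/
def UniformOverPn (X D : BiSet N n) (G : BiPoly N n) (R : ℕ) : Prop :=
  ∀ (L : Type) [Field L] [Algebra ℂ L] (a : Fin (N + 1) → L) (b : Fin (n + 1) → L) (d : ℕ),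
    X.Mem a b → ¬ D.Mem a b → aeval (Sum.elim a b) G ≠ 0 →
    IntermediateField.adjoin ℂ
      ({f : L | ∃ i j, a j ≠ 0 ∧ f = a i / a j} ∪ {f : L | ∃ i j, b j ≠ 0 ∧ f = b i / b j}) = ⊤ →
    Algebra.trdeg ℂ L = d → 0 < d → Effective L R d (CentreIn D a b) b

/-- The same with `H = O(1, 1)`, the class of the Segre embedding of `P^N × P^n`, which is ample. -/
def UniformOff (X D : BiSet N n) (G : BiPoly N n) (R : ℕ) : Prop :=
  ∀ (L : Type) [Field L] [Algebra ℂ L] (a : Fin (N + 1) → L) (b : Fin (n + 1) → L) (d : ℕ),
    X.Mem a b → ¬ D.Mem a b → aeval (Sum.elim a b) G ≠ 0 →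
    IntermediateField.adjoin ℂ
      ({f : L | ∃ i j, a j ≠ 0 ∧ f = a i / a j} ∪ {f : L | ∃ i j, b j ≠ 0 ∧ f = b i / b j}) = ⊤ →
    Algebra.trdeg ℂ L = d → 0 < d →
    Effective L R d (CentreIn D a b) fun p : Fin (N + 1) × Fin (n + 1) => a p.1 * b p.2

end Pool.Agent.TH152.DS
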