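import Pool.Agent.TH152.DS.Wt
import Pool.Agent.TH152.HY.Deg
import Pool.Agent.TH152.DS.LangDefs

/-!
Uniform positivity of the canonical bundle of varieties with a map to projective space which is
highly ramified over an arrangement which is not reducible.
-/

set_option autoImplicit false

open FF Pool.Agent.W603.LV Pool.Agent.W602.GT Pool.Agent.W602.Cov Pool.Agent.W602.Cov.G
open Pool.Agent.W168.CG.PGR Pool.Agent.TH152.AC Pool.Agent.TH152.HY

namespace Pool.Agent.TH152.DS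

/-- the least multiplicity which is large enough -/
def mult (n : ℕ) : ℕ := n * (n + 1) * (n + 2) / 2 + 1

theorem sub_uniform (n q : ℕ) (hn : 1 ≤ n) : ∃ R : ℕ, 0 < R ∧ ∀ {ℓ : Fin q → Form n},
    (∀ i, ℓ i ≠ 0) → ¬ Reducible ℓ → ∀ {m : ℕ}, n * (n + 1) * (n + 2) < 2 * m →
    ∀ {d : ℕ} {K : Type} [Field K] [Algebra ℂ K] {x : Fin (n + 1) → K},
    LinearIndependent ℂ x → ∀ σ : Fin (d + 1) → Fin (n + 1), x (σ 0) ≠ 0 →
    IsTranscendenceBasis ℂ (fun j : Fin d => x (σ j.succ) / x (σ 0)) →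
    ∀ Bd : Place ℂ K → Prop,
    (∀ P : Place ℂ K, Divisorial d P → ¬ Bd P → HighAt ℓ x m P) → Effective K R d Bd x := by
  classical
  obtain ⟨N, hp0, hwt⟩ := weights_unif n q hn
  obtain ⟨m0, hm0def⟩ : ∃ m0, m0 = mult n := ⟨_, rfl⟩
  obtain ⟨t, ht⟩ : ∃ t : ℕ, t = (n + 2) * m0 := ⟨_, rfl⟩
  have hm00 : n * (n + 1) * (n + 2) < 2 * m0 := by
    rw [hm0def]
    unfold mult
    omega
  have hm0pos : 0 < m0 := by omega
  refine ⟨(n * (n + 1)).factorial * (t * N), by rw [ht]; positivity, ?_⟩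
  intro ℓ hℓ hr m hm d K _ _ x hli σ hσ hbas Bd hP
  have hmm0 : m0 ≤ m := by
    rw [hm0def]
    unfold mult
    omega
  have hspan := Pool.Agent.W392.CG.span_top hn ℓ hr
  obtain ⟨B0⟩ := exists_bases hspan
  have i0 : Fin q := B0.1 0
  obtain ⟨p, hpN, hp⟩ := hwt ℓ hℓ hr
  have hlx : ∀ i, lf (ℓ i) x ≠ 0 := fun i => lf_ne_of_li hli (hℓ i)
  obtain ⟨D, hD⟩ := (bwb d K).2.2 (fun j => x (σ j)) hσ hbas
  obtain ⟨I0, hI0⟩ := exists_index hspan D σ hD
  have hDt : (Matrix.of fun i j : Fin d => D i (x (σ j.succ) / x (σ 0))).det ≠ 0 := by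
    have h1 := Pool.Agent.W930.CG.bw_eq bwa D (fun j => x (σ j)) hσ
    rw [h1] at hD
    exact right_ne_zero_of_mul hD
  obtain ⟨hall, hconst⟩ := consts_basis hbas hDt
  obtain ⟨S, hS⟩ := exists_minWords hconst hlx hI0 hli
  set A : ℕ := ∑ a, (S a).length with hA
  have hA1 : 1 ≤ A := by
    by_contra h0
    have h1 : ∀ a, (S a).length = 0 := by
      intro a
      have h2 : (S a).length ≤ A := Finset.single_le_sum (f := fun a => (S a).length)
        (fun _ _ => Nat.zero_le _) (Finset.mem_univ a)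
      omega
    apply hS.ne
    have h3 : (0 : Fin (n + 1)) ≠ Fin.last n := by
      intro h
      have := congrArg Fin.val h
      rw [Fin.val_last, Fin.val_zero] at this
      omega
    refine Matrix.det_zero_of_row_eq h3 ?_
    change wv D _ x (S 0) = wv D _ x (S (Fin.last n))
    rw [List.length_eq_zero_iff.mp (h1 0), List.length_eq_zero_iff.mp (h1 (Fin.last n))]
  have hAm : (n + 2) * A < m0 := by
    have h1 : 2 * ((n + 2) * A) < 2 * m0 := by
      calc 2 * ((n + 2) * A) = (n + 2) * (2 * A) := by ring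
        _ ≤ (n + 2) * (n * (n + 1)) := Nat.mul_le_mul_left _ hS.le
        _ = n * (n + 1) * (n + 2) := by ring
        _ < 2 * m0 := hm00
    omega
  have hAle : A ≤ n * (n + 1) := by
    have := hS.le
    omega
  have htz : (t : ℤ) = ((n : ℤ) + 2) * m0 := by
    rw [ht]
    push_cast
    ring
  have hN1 : (1 : ℤ) ≤ (N : ℤ) := by exact_mod_cast hp0
  have hNz : (N : ℤ) = ∑ B, (p B : ℤ) := by rw [← hpN]; push_cast; rfl
  have hpl : IsPluri (A * (t * N)) (sf ℓ x p t S) := by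
    intro M E
    obtain ⟨M1, rfl⟩ := hall E
    have e1 : (fun i => ∑ j, M i j • (fun i => ∑ j, M1 i j • D j) j) =
        fun i => ∑ j, (M * M1) i j • D j := by
      funext i
      simp only [Finset.smul_sum, smul_smul, Matrix.mul_apply, Finset.sum_smul]
      rw [Finset.sum_comm]
    have h1 : HY.psi (fun i => ∑ j, M i j • (fun i => ∑ j, M1 i j • D j) j)
        (fun i => lf (ℓ i) x) x S =
        M.det ^ A * HY.psi (fun i => ∑ j, M1 i j • D j) (fun i => lf (ℓ i) x) x S := by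
      rw [e1]
      unfold HY.psi
      rw [det_change hS, det_change hS, Matrix.det_mul, mul_pow, mul_assoc]
    unfold sf
    rw [h1, mul_pow, ← pow_mul, mul_div_assoc, hpN]
  -- the orders
  have hgood : ∀ (P : Place ℂ K) (E : Fin d → Derivation ℂ K K) (a c : ℤ) (v : Fin q → ℕ)
      (j : Fin (n + 1)), (∀ i, P.ord (lf (ℓ i) x) = a + v i) → (∀ j, Ge P a (x j)) →
      Ge P c (sf ℓ x p t S E) → (v i0 : ℤ) ≤ c → Ge P 0 (sf ℓ x p t S E * x j / lf (ℓ i0) x) := by
    intro P E a c v j h1 h2 h3 h4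
    have h5 := ge_div (hlx i0) (h3.mul (h2 j))
    rw [h1 i0] at h5
    exact h5.mono (by linarith)
  have hden : ∀ (P : Place ℂ K) (a : ℤ) (v : Fin q → ℕ), (∀ i, P.ord (lf (ℓ i) x) = a + v i) →
      P.ord (den ℓ x p t) = t * N * ((n + 1) * a) + t * ∑ B, (p B : ℤ) * ∑ b, (v (B.1 b) : ℤ) := by
    intro P a v hv
    rw [ord_den P hlx p t]
    simp only [hv, Finset.sum_add_distrib, Finset.sum_const, Finset.card_univ, Fintype.card_fin,
      nsmul_eq_mul, mul_add]
    rw [← Finset.sum_mul, ← hNz]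
    push_cast
    ring
  have hsf : ∀ (P : Place ℂ K) (E : Fin d → Derivation ℂ K K) (e : ℕ) (a : ℤ) (v : Fin q → ℕ)
      (B' : Bases ℓ), (∀ f : Fin (d + 1) → K, (∀ j, f j ≠ 0) →
        Ge P ((∑ j, P.ord (f j)) - e) (bw E f)) → (∀ i, P.ord (lf (ℓ i) x) = a + v i) →
      Ge P (t * (N * ∑ b, (v (B'.1 b) : ℤ)) - e * (t * N * A) -
        t * ∑ B, (p B : ℤ) * ∑ b, (v (B.1 b) : ℤ)) (sf ℓ x p t S E) := by
    intro P E e a v B' h1 hv
    have h2 := (ge_psi (D := E) hlx h1 S B').pow (t * N)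
    have h3 := ge_div (den_ne hlx p t) h2
    rw [hden P a v hv] at h3
    unfold sf
    rw [hpN]
    refine h3.mono (le_of_eq ?_)
    simp only [hv, Finset.sum_add_distrib, Finset.sum_const, Finset.card_univ, Fintype.card_fin,
      nsmul_eq_mul]
    rw [hA]
    push_cast
    ring
  have hlog : ∀ P : Place ℂ K, ∀ E : Fin d → Derivation ℂ K K, (∀ i, DerLog P (E i)) →
      ∀ j, Ge P 0 (sf ℓ x p t S E * x j / lf (ℓ i0) x) := by
    intro P E hE j
    obtain ⟨a, v, hv, hxj, hsp⟩ := norm_orders hspan hlx P i0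
    obtain ⟨B', hB'⟩ := orders p hp ⟨B0⟩ v hsp
    refine hgood P E a _ v _ hv hxj (hsf P E 0 a v B' (fun f hf => ?_) hv) ?_
    · have := bw_ge_log P E f hE hf
      simpa using this
    · have h1 := hB' i0
      have h2 : ((n : ℤ) + 2) * (∑ B, (p B : ℤ) * ∑ b, (v (B.1 b) : ℤ)) + N * v i0 ≤
          (n + 2) * (N * ∑ b, (v (B'.1 b) : ℤ)) := by
        rw [hNz]
        exact_mod_cast h1
      have h3 := arith3 (n := n) (by positivity) hN1 h2 (by positivity) (t := t) (by
        rw [htz]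
        have : (1 : ℤ) ≤ m0 := by exact_mod_cast hm0pos
        nlinarith)
      refine h3.trans (le_of_eq ?_)
      push_cast
      ring
  have hreg : ∀ P : Place ℂ K, Divisorial d P → ¬ Bd P → ∀ E : Fin d → Derivation ℂ K K,
      (∀ i, DerReg P (E i)) → ∀ j, Ge P 0 (sf ℓ x p t S E * x j / lf (ℓ i0) x) := by
    intro P hPd hPB E hE j
    obtain ⟨a, v, hv, hxj, hsp⟩ := norm_orders hspan hlx P i0
    by_cases hv0 : v = 0
    · have ha : ∀ i, P.ord (lf (ℓ i) x) = a := fun i => by rw [hv i, hv0]; simp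
      have h1 := (ge_psi_unit (D := E) hlx ha (fun f hf => (bwb d K).2.1 P E f hE hf) S B0).pow
        (t * N)
      have h2 := ge_div (den_ne hlx p t) h1
      rw [hden P a v hv, hv0] at h2
      refine hgood P E a 0 v _ hv hxj ?_ ?_
      · unfold sf
        rw [hpN]
        refine h2.mono (le_of_eq ?_)
        simp
      · rw [hv0]
        simp
    · obtain ⟨i2, hi2⟩ := hP P hPd hPB a v hv hv0 hsp
      obtain ⟨B', hB'⟩ := orders p hp ⟨B0⟩ v hsp
      obtain ⟨i1, -, hi1⟩ := Finset.exists_max_image (Finset.univ : Finset (Fin q)) v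
        ⟨i0, Finset.mem_univ _⟩
      refine hgood P E a _ v _ hv hxj (hsf P E 1 a v B' (fun f hf => ?_) hv) ?_
      · exact_mod_cast (bwb d K).1 P E f hE hf
      · have h1 := hB' i1
        have h2 : ((n : ℤ) + 2) * (∑ B, (p B : ℤ) * ∑ b, (v (B.1 b) : ℤ)) + N * v i1 ≤
            (n + 2) * (N * ∑ b, (v (B'.1 b) : ℤ)) := by
          rw [hNz]
          exact_mod_cast h1
        have h3 := arith2 (n := n) (m := m0) (A := A) (v0 := v i0) (t := t) (by positivity) hN1 h2
          (by exact_mod_cast hAm) (by positivity)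
          (by exact_mod_cast (hmm0.trans hi2).trans (hi1 i2 (Finset.mem_univ _)))
          (by exact_mod_cast hi1 i0 (Finset.mem_univ _)) (by positivity) htz
        refine h3.trans (le_of_eq ?_)
        push_cast
        ring
  have hsf0 : sf ℓ x p t S D ≠ 0 := div_ne_zero (pow_ne_zero _ hS.ne) (den_ne hlx p t)
  obtain ⟨e, he⟩ : A ∣ (n * (n + 1)).factorial := Nat.dvd_factorial (by omega) hAle
  have he0 : 0 < e := by
    rcases Nat.eq_zero_or_pos e with h | h
    · rw [h, mul_zero] at he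
      exact absurd he (Nat.factorial_ne_zero _)
    · exact h
  obtain ⟨e', rfl⟩ : ∃ e', e = e' + 1 := ⟨e - 1, by omega⟩
  have key : ∀ (P : Place ℂ K) (E : Fin d → Derivation ℂ K K),
      (∀ j, Ge P 0 (sf ℓ x p t S E * x j / lf (ℓ i0) x)) → ∀ j,
      P.Reg ((sf ℓ x p t S E / lf (ℓ i0) x) ^ (e' + 1) * x (σ 0) ^ e' * x j) := by
    intro P E h j
    have h1 := ((h (σ 0)).pow e').mul (h j)
    rw [mul_zero, add_zero] at h1
    have h2 : (sf ℓ x p t S E / lf (ℓ i0) x) ^ (e' + 1) * x (σ 0) ^ e' * x j =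
        (sf ℓ x p t S E * x (σ 0) / lf (ℓ i0) x) ^ e' *
          (sf ℓ x p t S E * x j / lf (ℓ i0) x) := by
      rw [div_pow, div_pow, mul_pow, pow_succ, pow_succ]
      have h0 := hlx i0
      field_simp
    rw [h2]
    exact h1
  refine ⟨fun E => (sf ℓ x p t S E / lf (ℓ i0) x) ^ (e' + 1) * x (σ 0) ^ e', ?_, ⟨D, ?_⟩, ?_, ?_⟩
  · intro M E
    change (sf ℓ x p t S _ / lf (ℓ i0) x) ^ (e' + 1) * x (σ 0) ^ e' = _
    rw [hpl M E, mul_div_assoc, mul_pow, ← pow_mul, mul_assoc]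
    congr 2
    rw [he]
    ring
  · exact mul_ne_zero (pow_ne_zero _ (div_ne_zero hsf0 (hlx i0))) (pow_ne_zero _ hσ)
  · intro P _ j E hE
    exact key P E (hlog P E hE) j
  · intro P hPd hPB j E hE
    exact key P E (hreg P hPd hPB E hE) j

end Pool.Agent.TH152.DS
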