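import Pool.Agent.TH152.AC.Dual

/-!
The weights on the bases of an arrangement can be chosen with a total which depends only on the
number of hyperplanes and the dimension.
-/

set_option autoImplicit false

open Module Pool.Agent.W602.Cov Pool.Agent.TH152.AC

namespace Pool.Agent.TH152.DS

variable {n q : ℕ} {ℓ ℓ' : Fin q → Form n}

/-- the rank is the largest number of elements of a basis in the set -/
theorem exists_rk (hne : Nonempty (Bases ℓ)) (F : Finset (Fin q)) :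
    ∃ B : Bases ℓ, rk ℓ F = cnt B.1 F := by
  classical
  obtain ⟨B1⟩ := hne
  obtain ⟨B, -, hmax⟩ := Finset.exists_max_image (Finset.univ : Finset (Bases ℓ))
    (fun B => ∑ a, (fun i => if i ∈ F then 1 else 0 : Fin q → ℕ) (B.1 a)) ⟨B1, Finset.mem_univ _⟩
  have h1 := fill (fun i => if i ∈ F then 1 else 0) B (fun B' => hmax B' (Finset.mem_univ _)) 1
  have e : (Finset.univ.filter fun i : Fin q => 1 ≤ (if i ∈ F then 1 else 0 : ℕ)) = F := by
    ext i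
    rw [Finset.mem_filter]
    by_cases hi : i ∈ F <;> simp [hi]
  rw [e] at h1
  exact ⟨B, le_antisymm h1 (cnt_le_rk B F)⟩

theorem rk_congr (hne : Nonempty (Bases ℓ)) (h : ∀ B : Fin (n + 1) → Fin q,
    LinearIndependent ℂ (fun a => ℓ (B a)) ↔ LinearIndependent ℂ (fun a => ℓ' (B a)))
    (F : Finset (Fin q)) : rk ℓ F = rk ℓ' F := by
  have hne' : Nonempty (Bases ℓ') := by
    obtain ⟨B⟩ := hne
    exact ⟨⟨B.1, (h B.1).1 B.2⟩⟩
  obtain ⟨B, hB⟩ := exists_rk hne F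
  obtain ⟨B', hB'⟩ := exists_rk hne' F
  refine le_antisymm ?_ ?_
  · rw [hB]
    exact cnt_le_rk (⟨B.1, (h B.1).1 B.2⟩ : Bases ℓ') F
  · rw [hB']
    exact cnt_le_rk (⟨B'.1, (h B'.1).2 B'.2⟩ : Bases ℓ) F

theorem proper_iff (F : Finset (Fin q)) : Proper ℓ F ↔ F.Nonempty ∧ rk ℓ F ≠ n + 1 := by
  unfold Proper rk
  refine and_congr_right fun _ => not_congr ?_
  constructor
  · intro h
    rw [h, finrank_top, finrank_form]
  · intro h
    refine Submodule.eq_top_of_finrank_eq ?_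
    rw [h, finrank_form]

theorem unif_one (hn : 1 ≤ n) (τ : Set (Fin (n + 1) → Fin q)) : ∃ N : ℕ, 0 < N ∧
    ∀ ℓ : Fin q → Form n, (∀ i, ℓ i ≠ 0) → ¬ Reducible ℓ →
      {B : Fin (n + 1) → Fin q | LinearIndependent ℂ fun a => ℓ (B a)} = τ →
      ∃ p : Bases ℓ → ℕ, ∑ B, p B = N ∧ ∀ F : Finset (Fin q), Proper ℓ F →
        (n + 2) * (∑ B, p B * cnt B.1 F) + ∑ B, p B ≤ (n + 2) * ((∑ B, p B) * rk ℓ F) := by
  classical
  by_cases hex : ∃ ℓ : Fin q → Form n, (∀ i, ℓ i ≠ 0) ∧ ¬ Reducible ℓ ∧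
      {B : Fin (n + 1) → Fin q | LinearIndependent ℂ fun a => ℓ (B a)} = τ
  · obtain ⟨ℓ0, h0, hr0, rfl⟩ := hex
    obtain ⟨p0, hp0, hp⟩ := weights hn h0 hr0
    refine ⟨∑ B, p0 B, hp0, fun ℓ hℓ hr hset => ?_⟩
    have hiff : ∀ B : Fin (n + 1) → Fin q, LinearIndependent ℂ (fun a => ℓ (B a)) ↔
        LinearIndependent ℂ (fun a => ℓ0 (B a)) := fun B => by
      have := Set.ext_iff.mp hset B
      exact this
    have hne0 : Nonempty (Bases ℓ0) := by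
      by_contra hemp
      rw [not_nonempty_iff] at hemp
      rw [Finset.univ_eq_empty, Finset.sum_empty] at hp0
      exact absurd hp0 (lt_irrefl _)
    have hrk : ∀ F, rk ℓ F = rk ℓ0 F := fun F =>
      (rk_congr hne0 (fun B => (hiff B).symm) F).symm
    let e : Bases ℓ ≃ Bases ℓ0 := Equiv.subtypeEquivRight hiff
    have hsum : ∀ g : Bases ℓ0 → ℕ, ∑ B : Bases ℓ, g (e B) = ∑ B, g B := fun g =>
      Equiv.sum_comp e g
    refine ⟨fun B => p0 (e B), hsum p0, fun F hF => ?_⟩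
    rw [proper_iff, hrk, ← proper_iff] at hF
    have h1 := hp F hF
    have h2 : ∑ B : Bases ℓ, p0 (e B) * cnt B.1 F = ∑ B, p0 B * cnt B.1 F :=
      hsum fun B => p0 B * cnt B.1 F
    rw [h2, hsum p0, hrk]
    exact h1
  · refine ⟨1, one_pos, fun ℓ hℓ hr hset => ?_⟩
    exact absurd ⟨ℓ, hℓ, hr, hset⟩ hex

/-- **Uniform weights.** -/
theorem weights_unif (n q : ℕ) (hn : 1 ≤ n) : ∃ N : ℕ, 0 < N ∧ ∀ ℓ : Fin q → Form n,
    (∀ i, ℓ i ≠ 0) → ¬ Reducible ℓ → ∃ p : Bases ℓ → ℕ, ∑ B, p B = N ∧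
      ∀ F : Finset (Fin q), Proper ℓ F →
        (n + 2) * (∑ B, p B * cnt B.1 F) + ∑ B, p B ≤ (n + 2) * ((∑ B, p B) * rk ℓ F) := by
  classical
  choose N hN h using fun τ : Set (Fin (n + 1) → Fin q) => unif_one (n := n) (q := q) hn τ
  refine ⟨∏ τ, N τ, Finset.prod_pos fun τ _ => hN τ, fun ℓ hℓ hr => ?_⟩
  obtain ⟨τ, hτ⟩ : ∃ τ, τ = {B : Fin (n + 1) → Fin q | LinearIndependent ℂ fun a => ℓ (B a)} :=
    ⟨_, rfl⟩
  obtain ⟨p, hp, hp'⟩ := h τ ℓ hℓ hr hτ.symm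
  obtain ⟨c, hc⟩ : N τ ∣ ∏ τ, N τ := Finset.dvd_prod_of_mem _ (Finset.mem_univ _)
  refine ⟨fun B => c * p B, ?_, fun F hF => ?_⟩
  · rw [← Finset.mul_sum, hp, hc, mul_comm]
  · have h1 := Nat.mul_le_mul_left c (hp' F hF)
    have h2 : ∑ B, c * p B * cnt B.1 F = c * ∑ B, p B * cnt B.1 F := by
      rw [Finset.mul_sum]
      exact Finset.sum_congr rfl fun B _ => by ring
    rw [h2, ← Finset.mul_sum]
    calc (n + 2) * (c * ∑ B, p B * cnt B.1 F) + c * ∑ B, p B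
        = c * ((n + 2) * (∑ B, p B * cnt B.1 F) + ∑ B, p B) := by ring
      _ ≤ c * ((n + 2) * ((∑ B, p B) * rk ℓ F)) := h1
      _ = (n + 2) * ((c * ∑ B, p B) * rk ℓ F) := by ring

end Pool.Agent.TH152.DS
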